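import Pool.Agent.EXB.Growth

/-!
# Lipschitz functions are concentrated on expanding balls
-/

set_option autoImplicit false

open scoped Classical

namespace Pool.Agent.EXB

theorem lip_dist {V : Type*} {G : SimpleGraph V} (hG : G.Connected) (f : V → ℝ) (L : ℝ)
    (hf : ∀ x y, G.Adj x y → |f x - f y| ≤ L) (x y : V) : |f x - f y| ≤ L * G.dist x y := by
  obtain ⟨q, hq⟩ := hG.exists_walk_length_eq_dist x y
  rw [← hq]
  clear hq
  induction q with
  | nil => simp
  | @cons u v w h p ih =>
    rw [SimpleGraph.Walk.length_cons]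
    have h1 := hf _ _ h
    have h2 := abs_sub_le (f u) (f v) (f w)
    push_cast
    linarith

theorem exists_median {V : Type*} (B : Finset V) (hne : B.Nonempty) (f : V → ℝ) : ∃ m : ℝ,
    2 * (B.filter (fun x => f x < m)).card ≤ B.card ∧
    2 * (B.filter (fun x => m < f x)).card ≤ B.card := by
  let A := (B.image f).filter (fun v => 2 * (B.filter (fun x => f x < v)).card ≤ B.card)
  have hA : A.Nonempty := by
    obtain ⟨x0, hx0, hmin⟩ := B.exists_min_image f hne
    refine ⟨f x0, Finset.mem_filter.2 ⟨Finset.mem_image_of_mem _ hx0, ?_⟩⟩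
    have : B.filter (fun x => f x < f x0) = ∅ := by
      apply Finset.filter_eq_empty_iff.2
      intro x hx
      exact not_lt.2 (hmin x hx)
    rw [this]
    simp
  obtain ⟨m, hmA, hmax⟩ := A.exists_max_image id hA
  refine ⟨m, (Finset.mem_filter.1 hmA).2, ?_⟩
  by_contra hcon
  push Not at hcon
  have hne2 : (B.filter (fun x => m < f x)).Nonempty := by
    rw [← Finset.card_pos]
    omega
  obtain ⟨x1, hx1, hmin⟩ := (B.filter (fun x => m < f x)).exists_min_image f hne2
  have hx1' := Finset.mem_filter.1 hx1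
  have h1 : B.filter (fun x => f x < f x1) ⊆ B \ B.filter (fun x => m < f x) := by
    intro x hx
    rw [Finset.mem_filter] at hx
    rw [Finset.mem_sdiff]
    refine ⟨hx.1, fun h => ?_⟩
    exact absurd (hmin x h) (not_le.2 hx.2)
  have h2 := Finset.card_le_card h1
  rw [Finset.card_sdiff_of_subset (Finset.filter_subset _ _)] at h2
  have h3 : f x1 ∈ A := by
    refine Finset.mem_filter.2 ⟨Finset.mem_image_of_mem _ hx1'.1, ?_⟩
    omega
  have h4 := hmax _ h3
  simp only [id] at h4
  linarith [hx1'.2]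

theorem conc {V : Type*} {G : SimpleGraph V} (hG : G.Connected) {B : Finset V} {ε D : ℝ}
    (hD : 0 < D) (hεD : ε ≤ D) (hB : CheegerGE G (B : Set V) ε)
    (hdeg : ∀ x ∈ B, ((B.filter (G.Adj x)).card : ℝ) ≤ D) (t : ℕ)
    (ht : (1 - ε / D) ^ t ≤ 1 / 2) (f : V → ℝ) (L : ℝ)
    (hf : ∀ x y, G.Adj x y → |f x - f y| ≤ L) (hL : 0 ≤ L) :
    ∃ m : ℝ, B.card ≤ 2 * (B.filter (fun x => |f x - m| ≤ L * t)).card := by
  rcases B.eq_empty_or_nonempty with rfl | hne
  · exact ⟨0, by simp⟩
  obtain ⟨m, hm1, hm2⟩ := exists_median B hne f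
  refine ⟨m, ?_⟩
  have key : ∀ U : Finset V, U ⊆ B → 2 * U.card ≤ B.card → ∀ W : Finset V, W ⊆ U →
      (∀ x ∈ W, ∀ y ∈ B, G.dist x y ≤ t → y ∈ U) → 4 * W.card ≤ B.card := by
    intro U hU hU2 W hWU hW
    have h1 := peelIter_card hD hεD hB hdeg hU hU2 t
    have h2 : W ⊆ peelIter G B U t := by
      intro x hx
      by_contra hcon
      obtain ⟨y, hyB, hyU, hxy⟩ := exists_of_not_mem_peelIter hG t (hWU hx) hcon
      exact hyU (hW x hx y hyB hxy)
    have h3 : (W.card : ℝ) ≤ (peelIter G B U t).card := by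
      exact_mod_cast Finset.card_le_card h2
    have h4 : (1 - ε / D) ^ t * (U.card : ℝ) ≤ 1 / 2 * U.card :=
      mul_le_mul_of_nonneg_right ht (Nat.cast_nonneg _)
    have h5 : (2 * U.card : ℝ) ≤ B.card := by exact_mod_cast hU2
    have h6 : (4 * W.card : ℝ) ≤ B.card := by linarith
    exact_mod_cast h6
  have hlip := lip_dist hG f L hf
  have hLt : ∀ x y, G.dist x y ≤ t → |f x - f y| ≤ L * t := by
    intro x y hxy
    refine (hlip x y).trans (mul_le_mul_of_nonneg_left ?_ hL)
    exact_mod_cast hxy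
  have h1 : 4 * (B.filter (fun x => m + L * t < f x)).card ≤ B.card := by
    apply key (B.filter (fun x => m < f x)) (Finset.filter_subset _ _) hm2
    · intro x hx
      rw [Finset.mem_filter] at hx ⊢
      refine ⟨hx.1, lt_of_le_of_lt ?_ hx.2⟩
      have : 0 ≤ L * (t : ℝ) := by positivity
      linarith
    · intro x hx y hyB hxy
      rw [Finset.mem_filter] at hx ⊢
      have := abs_le.1 (hLt x y hxy)
      exact ⟨hyB, by linarith [hx.2]⟩
  have h2 : 4 * (B.filter (fun x => f x < m - L * t)).card ≤ B.card := by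
    apply key (B.filter (fun x => f x < m)) (Finset.filter_subset _ _) hm1
    · intro x hx
      rw [Finset.mem_filter] at hx ⊢
      refine ⟨hx.1, lt_of_lt_of_le hx.2 ?_⟩
      have : 0 ≤ L * (t : ℝ) := by positivity
      linarith
    · intro x hx y hyB hxy
      rw [Finset.mem_filter] at hx ⊢
      have := abs_le.1 (hLt x y hxy)
      exact ⟨hyB, by linarith [hx.2]⟩
  have h3 : B ⊆ B.filter (fun x => |f x - m| ≤ L * t) ∪
      (B.filter (fun x => m + L * t < f x) ∪ B.filter (fun x => f x < m - L * t)) := by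
    intro x hx
    by_cases h : |f x - m| ≤ L * t
    · exact Finset.mem_union_left _ (Finset.mem_filter.2 ⟨hx, h⟩)
    · apply Finset.mem_union_right
      rw [abs_le] at h
      rw [Finset.mem_union, Finset.mem_filter, Finset.mem_filter]
      by_cases h' : m + L * t < f x
      · exact Or.inl ⟨hx, h'⟩
      · right
        refine ⟨hx, ?_⟩
        by_contra hcon
        exact h ⟨by linarith, by linarith⟩
  have h4 := Finset.card_le_card h3
  have h5 := Finset.card_union_le (B.filter (fun x => |f x - m| ≤ L * t))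
    (B.filter (fun x => m + L * t < f x) ∪ B.filter (fun x => f x < m - L * t))
  have h6 := Finset.card_union_le (B.filter (fun x => m + L * t < f x))
    (B.filter (fun x => f x < m - L * t))
  omega

end Pool.Agent.EXB
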