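import Pool.Agent.EXB.HypDefs

/-!
# Four point hyperbolic geometry
-/

set_option autoImplicit false

namespace Pool.Agent.EXB

variable {X : Type*} [PseudoMetricSpace X]

theorem gp_comm (x y w : X) : gp x y w = gp y x w := by
  unfold gp
  rw [dist_comm x y]
  ring

theorem gp_add (x y w : X) : gp x y w + gp w y x = dist x w := by
  unfold gp
  rw [dist_comm w x, dist_comm w y, dist_comm y x]
  ring

theorem gp_self (x w : X) : gp x x w = dist x w := by
  unfold gp
  rw [dist_self]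
  ring

theorem gp_nonneg (x y w : X) : 0 ≤ gp x y w := by
  unfold gp
  have := dist_triangle_right x y w
  linarith

theorem gp_base (x w : X) : gp w x w = 0 := by
  unfold gp
  rw [dist_self, dist_comm w x]
  ring

theorem gp_le_left (x x' y w : X) : gp x y w ≤ gp x' y w + dist x x' := by
  unfold gp
  have h1 := dist_triangle x x' w
  have h2 := dist_triangle x' x y
  rw [dist_comm x' x] at h2
  linarith

theorem gp_le_right (x y y' w : X) : gp x y w ≤ gp x y' w + dist y y' := by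
  rw [gp_comm x y, gp_comm x y']
  exact gp_le_left y y' x w

theorem gp_smul {Γ : Type*} [Group Γ] [MulAction Γ X] [IsIsometricSMul Γ X] (g : Γ) (x y w : X) :
    gp (g • x) (g • y) (g • w) = gp x y w := by
  unfold gp
  rw [dist_smul, dist_smul, dist_smul]

theorem delta_nonneg {δ : ℝ} (h : IsHyperbolic X δ) (x : X) : 0 ≤ δ := by
  have := h x x x x
  rw [gp_self, dist_self] at this
  simp at this
  exact this

/-- Two points near the same geodesic, at about the same distance from one end, are close. -/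
theorem two_points {δ : ℝ} (h : IsHyperbolic X δ) {x r p p' : X} {c s : ℝ}
    (h1 : gp x r p ≤ c) (h2 : gp x r p' ≤ c) (h3 : |dist x p - dist x p'| ≤ s) :
    dist p p' ≤ s + 2 * c + 2 * δ := by
  have e1 := gp_add p r x
  have e2 := gp_add p' r x
  have e3 := h p p' r x
  have e4 : gp p p' x = (dist p x + dist p' x - dist p p') / 2 := rfl
  rw [gp_comm r p' x] at e3
  rw [dist_comm p x] at e1 e4
  rw [dist_comm p' x] at e2 e4
  obtain ⟨h4, h5⟩ := abs_le.1 h3
  rcases min_cases (gp p r x) (gp p' r x) with ⟨hm, _⟩ | ⟨hm, _⟩ <;> rw [hm] at e3 <;> linarith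

/-- A broken path with a long middle piece and small products at the two breaks. -/
theorem join {δ : ℝ} (h : IsHyperbolic X δ) {x p q r : X} {c : ℝ}
    (h1 : gp x q p ≤ c) (h2 : gp p r q ≤ c) (h3 : 2 * c + δ < dist p q) :
    gp x r p ≤ c + δ ∧ gp x r q ≤ c + δ := by
  constructor
  · have e1 := h x q r p
    have e2 := gp_add q r p
    rw [dist_comm q p] at e2
    rw [gp_comm r q p] at e1
    by_contra hcon
    push Not at hcon
    rcases min_cases (gp x r p) (gp q r p) with ⟨hm, _⟩ | ⟨hm, _⟩ <;> rw [hm] at e1 <;> linarith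
  · have e1 := h p r x q
    have e2 := gp_add p x q
    rw [gp_comm q x p] at e2
    by_contra hcon
    push Not at hcon
    rcases min_cases (gp p x q) (gp x r q) with ⟨hm, _⟩ | ⟨hm, _⟩ <;> rw [hm] at e1 <;> linarith

/-- Local geodesics: a chain of long steps with small products turns back nowhere. -/
theorem chain {δ : ℝ} (h : IsHyperbolic X δ) {c : ℝ} (k : ℕ) : ∀ x : ℕ → X,
    (∀ j, gp (x j) (x (j + 2)) (x (j + 1)) ≤ c) →
    (∀ j, 2 * c + 2 * δ < dist (x j) (x (j + 1))) → gp (x 0) (x (k + 2)) (x 1) ≤ c + δ := by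
  induction k with
  | zero =>
    intro x h1 _
    have := h1 0
    have := delta_nonneg h (x 0)
    simp only [Nat.zero_add] at *
    linarith
  | succ k ih =>
    intro x h1 h2
    have e0 := ih (fun j => x (j + 1)) (fun j => h1 (j + 1)) (fun j => h2 (j + 1))
    simp only [Nat.zero_add] at e0
    have e0' : gp (x 1) (x (k + 1 + 2)) (x 2) ≤ c + δ := by
      have : k + 2 + 1 = k + 1 + 2 := by ring
      rw [this] at e0
      exact e0
    have e1 := h (x 0) (x 2) (x (k + 1 + 2)) (x 1)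
    have e2 := gp_add (x 2) (x (k + 1 + 2)) (x 1)
    have e3 := h2 1
    rw [dist_comm (x 2) (x 1)] at e2
    rw [gp_comm (x (k + 1 + 2)) (x 2)] at e1
    have e4 := h1 0
    simp only [Nat.zero_add] at e4
    by_contra hcon
    push Not at hcon
    rcases min_cases (gp (x 0) (x (k + 1 + 2)) (x 1)) (gp (x 2) (x (k + 1 + 2)) (x 1)) with
      ⟨hm, _⟩ | ⟨hm, _⟩ <;> rw [hm] at e1 <;> linarith

section Action

variable {Γ : Type*} [Group Γ] [MulAction Γ X] [IsIsometricSMul Γ X]

theorem dist_inv_pow (a : Γ) (x : X) (n : ℕ) : dist x (a⁻¹ ^ n • x) = dist x (a ^ n • x) := by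
  have := dist_smul (a ^ n) x (a⁻¹ ^ n • x)
  rw [smul_smul, inv_pow, mul_inv_cancel, one_smul] at this
  rw [inv_pow, ← this, dist_comm]

omit [IsIsometricSMul Γ X] in
theorem exists_step {δ : ℝ} (hδ : 0 ≤ δ) {a : Γ} {x : X} (ha : Loxodromic a x) :
    ∃ M : ℕ, 1 ≤ M ∧ dist x (a ^ M • x) + (3 * δ + 1) ≤ dist x (a ^ (2 * M) • x) := by
  by_contra hcon
  push Not at hcon
  obtain ⟨τ, hτ, hlin⟩ := ha
  have h1 : ∀ j : ℕ, dist x (a ^ (2 ^ j) • x) ≤ dist x (a • x) + j * (3 * δ + 1) := by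
    intro j
    induction j with
    | zero => simp
    | succ j ih =>
      have := hcon (2 ^ j) Nat.one_le_two_pow
      rw [show 2 ^ (j + 1) = 2 * 2 ^ j by ring]
      push_cast
      linarith
  obtain ⟨j, hj⟩ := exists_nat_gt ((dist x (a • x) + (3 * δ + 1)) / τ + 4)
  have hj4 : 4 ≤ j := by
    have h0 : 0 ≤ (dist x (a • x) + (3 * δ + 1)) / τ := by positivity
    have : (4 : ℝ) < j := by linarith
    exact_mod_cast this.le
  have h2 : dist x (a • x) + (3 * δ + 1) < τ * j := by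
    have : (dist x (a • x) + (3 * δ + 1)) / τ < j := by linarith
    rw [div_lt_iff₀ hτ] at this
    linarith
  have h3 := h1 j
  have h4 := hlin (2 ^ j)
  have h5 : (j : ℝ) ^ 2 ≤ 2 ^ j := by
    have : ∀ i : ℕ, 4 ≤ i → i ^ 2 ≤ 2 ^ i := by
      intro i hi
      induction i, hi using Nat.le_induction with
      | base => norm_num
      | succ i hi ih =>
        rw [pow_succ 2 i]
        nlinarith
    exact_mod_cast this j hj4
  push_cast at h4
  have hj1 : (1 : ℝ) ≤ j := by exact_mod_cast (by omega : 1 ≤ j)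
  have hd : 0 ≤ dist x (a • x) := dist_nonneg
  have h6 : τ * (j : ℝ) ^ 2 ≤ τ * 2 ^ j := mul_le_mul_of_nonneg_left h5 hτ.le
  have h7 : (dist x (a • x) + (3 * δ + 1)) * j < τ * j * j :=
    mul_lt_mul_of_pos_right h2 (by linarith)
  nlinarith

theorem bounded_product {δ : ℝ} (h : IsHyperbolic X δ) {a : Γ} {x : X} (ha : Loxodromic a x) :
    ∃ c : ℝ, ∀ m n : ℕ, gp (a ^ m • x) (a⁻¹ ^ n • x) x ≤ c := by
  have hδ := delta_nonneg h x
  obtain ⟨M, hM1, hM⟩ := exists_step hδ ha
  obtain ⟨c, hc⟩ : ∃ c, c = gp (a⁻¹ ^ M • x) (a ^ M • x) x := ⟨_, rfl⟩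
  have hd1 : dist (a⁻¹ ^ M • x) x = dist x (a ^ M • x) := by
    rw [dist_comm, dist_inv_pow]
  have hd2 : dist (a⁻¹ ^ M • x) (a ^ M • x) = dist x (a ^ (2 * M) • x) := by
    have := dist_smul (a ^ M) (a⁻¹ ^ M • x) (a ^ M • x)
    rw [smul_smul, smul_smul, inv_pow, mul_inv_cancel, one_smul, ← pow_add, ← two_mul] at this
    rw [inv_pow]
    exact this.symm
  have hcv : 2 * c = 2 * dist x (a ^ M • x) - dist x (a ^ (2 * M) • x) := by
    rw [hc]
    unfold gp
    rw [hd1, hd2, dist_comm (a ^ M • x) x]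
    ring
  have hc0 : 0 ≤ c := by
    rw [hc]
    exact gp_nonneg _ _ _
  -- chains in both directions
  have key : ∀ b : Γ, dist x (b ^ M • x) = dist x (a ^ M • x) →
      gp (b⁻¹ ^ M • x) (b ^ M • x) x = c → ∀ k : ℕ,
      gp (b⁻¹ ^ M • x) (b ^ (M * (k + 1)) • x) x ≤ c + δ := by
    intro b hb hbc k
    have := chain h (c := c) k (fun j => (b ^ (M * j) * b⁻¹ ^ M) • x) ?_ ?_
    · simp only [Nat.mul_zero, pow_zero, one_mul, Nat.mul_one] at this
      rw [inv_pow, mul_inv_cancel, one_smul, ← inv_pow] at this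
      have e : b ^ (M * (k + 2)) * b⁻¹ ^ M = b ^ (M * (k + 1)) := by
        rw [show M * (k + 2) = M * (k + 1) + M by ring, pow_add, mul_assoc, inv_pow,
          mul_inv_cancel, mul_one]
      rw [e] at this
      exact this
    · intro j
      have e0 : b ^ (M * j) * b⁻¹ ^ M = b ^ (M * j) * b⁻¹ ^ M := rfl
      have e1 : b ^ (M * (j + 1)) * b⁻¹ ^ M = b ^ (M * j) := by
        rw [show M * (j + 1) = M * j + M by ring, pow_add, mul_assoc, inv_pow,
          mul_inv_cancel, mul_one]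
      have e2 : b ^ (M * (j + 2)) * b⁻¹ ^ M = b ^ (M * j) * b ^ M := by
        rw [show M * (j + 2) = M * j + M + M by ring, pow_add, pow_add, mul_assoc _ _ (b⁻¹ ^ M),
          inv_pow, mul_inv_cancel, mul_one]
      show gp ((b ^ (M * j) * b⁻¹ ^ M) • x) ((b ^ (M * (j + 2)) * b⁻¹ ^ M) • x)
        ((b ^ (M * (j + 1)) * b⁻¹ ^ M) • x) ≤ c
      rw [e1, e2, mul_smul, mul_smul]
      rw [gp_smul]
      exact hbc.le
    · intro j
      have e1 : b ^ (M * (j + 1)) * b⁻¹ ^ M = b ^ (M * j) := by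
        rw [show M * (j + 1) = M * j + M by ring, pow_add, mul_assoc, inv_pow,
          mul_inv_cancel, mul_one]
      show 2 * c + 2 * δ < dist ((b ^ (M * j) * b⁻¹ ^ M) • x) ((b ^ (M * (j + 1)) * b⁻¹ ^ M) • x)
      rw [e1, mul_smul, dist_smul, dist_comm, dist_inv_pow, hb]
      linarith
  have hf := key a rfl hc.symm
  have hb := key a⁻¹ (dist_inv_pow a x M) (by rw [inv_inv, gp_comm, ← hc])
  rw [inv_inv] at hb
  -- products of multiples of M
  have hmul : ∀ k i : ℕ, gp (a ^ (M * k) • x) (a⁻¹ ^ (M * i) • x) x ≤ |c| + 2 * δ := by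
    intro k i
    rcases Nat.eq_zero_or_pos k with rfl | hk
    · simp only [Nat.mul_zero, pow_zero, one_smul]
      rw [gp_base]
      have := abs_nonneg c
      linarith
    rcases Nat.eq_zero_or_pos i with rfl | hi
    · simp only [Nat.mul_zero, pow_zero, one_smul]
      rw [gp_comm, gp_base]
      have := abs_nonneg c
      linarith
    obtain ⟨k, rfl⟩ := Nat.exists_eq_succ_of_ne_zero hk.ne'
    obtain ⟨i, rfl⟩ := Nat.exists_eq_succ_of_ne_zero hi.ne'
    have e1 := hf k
    have e2 : dist x (a ^ M • x) - (c + δ) ≤ gp (a⁻¹ ^ M • x) (a⁻¹ ^ (M * (i + 1)) • x) x := by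
      rcases Nat.eq_zero_or_pos i with rfl | hi
      · simp only [Nat.zero_add, Nat.mul_one]
        rw [gp_self, hd1]
        linarith
      obtain ⟨i, rfl⟩ := Nat.exists_eq_succ_of_ne_zero hi.ne'
      have e3 := gp_add (a⁻¹ ^ M • x) (a⁻¹ ^ (M * (i + 1 + 1)) • x) x
      have e4 := hb i
      have e5 : gp x (a⁻¹ ^ (M * (i + 1 + 1)) • x) (a⁻¹ ^ M • x) =
          gp (a ^ M • x) (a⁻¹ ^ (M * (i + 1)) • x) x := by
        rw [← gp_smul (a ^ M) x, smul_smul, smul_smul]
        rw [show M * (i + 1 + 1) = M + M * (i + 1) by ring, pow_add, ← mul_assoc]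
        rw [inv_pow a M, mul_inv_cancel, one_mul, one_smul]
      rw [e5, hd1] at e3
      linarith
    have e6 := h (a⁻¹ ^ M • x) (a ^ (M * (k + 1)) • x) (a⁻¹ ^ (M * (i + 1)) • x) x
    have e7 := le_abs_self c
    rw [gp_comm (a⁻¹ ^ (M * (i + 1)) • x) (a ^ (M * (k + 1)) • x) x] at e6
    by_contra hcon
    push Not at hcon
    simp only [Nat.succ_eq_add_one] at hcon
    rcases min_cases (gp (a⁻¹ ^ M • x) (a⁻¹ ^ (M * (i + 1)) • x) x)
      (gp (a ^ (M * (k + 1)) • x) (a⁻¹ ^ (M * (i + 1)) • x) x) with ⟨hm, _⟩ | ⟨hm, _⟩ <;>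
      rw [hm] at e6 <;> linarith
  -- general powers
  obtain ⟨B, hB⟩ : ∃ B : ℝ, ∀ r < M, dist x (a ^ r • x) ≤ B := by
    refine ⟨∑ r ∈ Finset.range M, dist x (a ^ r • x), fun r hr => ?_⟩
    exact Finset.single_le_sum (f := fun r => dist x (a ^ r • x)) (fun _ _ => dist_nonneg)
      (Finset.mem_range.2 hr)
  refine ⟨|c| + 2 * δ + 2 * B, fun m n => ?_⟩
  have hMpos : 0 < M := hM1
  have hm := Nat.div_add_mod m M
  have hn := Nat.div_add_mod n M
  have e1 : dist (a ^ m • x) (a ^ (M * (m / M)) • x) ≤ B := by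
    have e0 : a ^ m • x = a ^ (M * (m / M)) • a ^ (m % M) • x := by
      rw [← mul_smul, ← pow_add, hm]
    rw [e0, dist_smul, dist_comm]
    exact hB _ (Nat.mod_lt _ hMpos)
  have e2 : dist (a⁻¹ ^ n • x) (a⁻¹ ^ (M * (n / M)) • x) ≤ B := by
    have e0 : a⁻¹ ^ n • x = a⁻¹ ^ (M * (n / M)) • a⁻¹ ^ (n % M) • x := by
      rw [← mul_smul, ← pow_add, hn]
    rw [e0, dist_smul, dist_comm, dist_inv_pow]
    exact hB _ (Nat.mod_lt _ hMpos)
  have e3 := gp_le_left (a ^ m • x) (a ^ (M * (m / M)) • x) (a⁻¹ ^ n • x) x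
  have e4 := gp_le_right (a ^ (M * (m / M)) • x) (a⁻¹ ^ n • x) (a⁻¹ ^ (M * (n / M)) • x) x
  have e5 := hmul (m / M) (n / M)
  linarith

/-- An element which moves the two ends of an orbit segment little moves its points little. -/
theorem coarse_fix {δ : ℝ} (h : IsHyperbolic X δ) {a : Γ} {x : X} {c : ℝ}
    (hc : ∀ m n : ℕ, gp (a ^ m • x) (a⁻¹ ^ n • x) x ≤ c) {R : ℝ} {N n : ℕ} (hNn : N ≤ n) {g : Γ}
    (h1 : dist x (g • x) ≤ R) (h2 : dist (a ^ n • x) (g • a ^ n • x) ≤ R) :
    dist (a ^ N • x) (g • a ^ N • x) ≤ 5 * R + 2 * c + 2 * δ := by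
  have e1 : gp x (a ^ n • x) (a ^ N • x) ≤ c := by
    have := gp_smul (a ^ N) (a⁻¹ ^ N • x) (a ^ (n - N) • x) x
    rw [smul_smul, smul_smul, inv_pow, mul_inv_cancel, one_smul, ← pow_add,
      Nat.add_sub_cancel' hNn] at this
    rw [this, gp_comm, ← inv_pow]
    exact hc _ _
  have e2 : gp x (a ^ n • x) (g • a ^ N • x) ≤ c + 2 * R := by
    have e3 := gp_smul g x (a ^ n • x) (a ^ N • x)
    unfold gp at e3 e1 ⊢
    have t1 := dist_triangle x (g • x) (g • a ^ N • x)
    have t2 := dist_triangle (a ^ n • x) (g • a ^ n • x) (g • a ^ N • x)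
    have t3 := dist_triangle4 (g • x) x (a ^ n • x) (g • a ^ n • x)
    rw [dist_comm (g • x) x] at t3
    linarith
  have e4 : |dist x (a ^ N • x) - dist x (g • a ^ N • x)| ≤ R := by
    have t1 := dist_triangle x (g • x) (g • a ^ N • x)
    have t2 := dist_triangle (g • x) x (g • a ^ N • x)
    rw [dist_smul] at t1 t2
    rw [dist_comm (g • x) x] at t2
    rw [abs_le]
    constructor <;> linarith
  have hR : 0 ≤ R := dist_nonneg.trans h1
  have := two_points h (e1.trans (by linarith : c ≤ c + 2 * R)) e2 e4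
  linarith

end Action

end Pool.Agent.EXB
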