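import Pool.Agent.EXB.Conc
import Pool.Agent.EXB.Hyp

/-!
# Counting products, and growth rates
-/

set_option autoImplicit false

open scoped Classical Topology
open Filter

namespace Pool.Agent.EXB

theorem limit_bound (b : ℕ → ℝ) (lam : ℝ)
    (hlim : Tendsto (fun n : ℕ => (b n) ^ (1 / (n : ℝ))) atTop (𝓝 lam)) (N : ℕ) (hN : 0 < N)
    (q : ℝ) (hq : 0 ≤ q) (h : ∀ k : ℕ, q ^ k ≤ b (k * N)) : q ≤ lam ^ N := by
  have h1 : Tendsto (fun k : ℕ => k * N) atTop atTop := tendsto_id.atTop_mul_const' hN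
  have h2 := hlim.comp h1
  have h3 : q ^ (1 / (N : ℝ)) ≤ lam := by
    refine ge_of_tendsto h2 ?_
    filter_upwards [eventually_ge_atTop 1] with k hk
    have hk0 : (k : ℝ) ≠ 0 := by
      have : (1 : ℝ) ≤ k := by exact_mod_cast hk
      linarith
    have hN0 : (N : ℝ) ≠ 0 := by exact_mod_cast hN.ne'
    have e1 : q ^ (1 / (N : ℝ)) = (q ^ k) ^ (1 / ((k * N : ℕ) : ℝ)) := by
      rw [← Real.rpow_natCast q k, ← Real.rpow_mul hq]
      congr 1
      push_cast
      field_simp
    rw [Function.comp_apply, e1]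
    exact Real.rpow_le_rpow (pow_nonneg hq k) (h k) (by positivity)
  have h4 : 0 ≤ q ^ (1 / (N : ℝ)) := Real.rpow_nonneg hq _
  have h5 : (q ^ (1 / (N : ℝ))) ^ N = q := by
    rw [← Real.rpow_natCast, ← Real.rpow_mul hq]
    have hN0 : (N : ℝ) ≠ 0 := by exact_mod_cast hN.ne'
    rw [one_div, inv_mul_cancel₀ hN0, Real.rpow_one]
  calc q = (q ^ (1 / (N : ℝ))) ^ N := h5.symm
    _ ≤ lam ^ N := pow_le_pow_left₀ h4 h3 N

theorem exists_growth_rate (b : ℕ → ℝ) (h1 : ∀ n, 1 ≤ b n) (hmul : ∀ m n, b (m + n) ≤ b m * b n) :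
    ∃ lam : ℝ, Tendsto (fun n : ℕ => (b n) ^ (1 / (n : ℝ))) atTop (𝓝 lam) := by
  have hsub : Subadditive (fun n => Real.log (b n)) := by
    intro m n
    have hm := h1 m
    have hn := h1 n
    have hmn := h1 (m + n)
    rw [← Real.log_mul (by linarith) (by linarith)]
    exact Real.log_le_log (by linarith) (hmul m n)
  have hbdd : BddBelow (Set.range fun n => Real.log (b n) / (n : ℝ)) := by
    refine ⟨0, ?_⟩
    rintro _ ⟨n, rfl⟩
    exact div_nonneg (Real.log_nonneg (h1 n)) (Nat.cast_nonneg n)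
  have hlim := hsub.tendsto_lim hbdd
  refine ⟨Real.exp hsub.lim, ?_⟩
  have := (Real.continuous_exp.tendsto hsub.lim).comp hlim
  refine this.congr (fun n => ?_)
  have hn := h1 n
  rw [Function.comp_apply, Real.rpow_def_of_pos (by linarith), mul_one_div]

theorem count {Γ V : Type*} [Group Γ] [MulAction Γ V] {G : SimpleGraph V} (hG : G.Connected)
    (hdist : ∀ (g : Γ) (u v : V), G.dist (g • u) (g • v) = G.dist u v)
    (v₀ : V) (g : V → Γ) (hg : ∀ v, g v • v₀ = v) {ι : Type*} [Fintype ι] (F : ι → Γ)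
    (φ : V → V → ι) (n ℓ K : ℕ) (A : Finset V)
    (hA : ∀ v ∈ A, G.dist v₀ v ≤ n) (hF : ∀ i, G.dist v₀ (F i • v₀) ≤ ℓ)
    (hK : ∀ (i : ι) (z : V),
      (A.filter (fun v => ∃ w, φ v w = i ∧ g v • F i • w = z)).card ≤ K) (k : ℕ) :
    ∃ W : Finset V, (∀ w ∈ W, G.dist v₀ w ≤ k * (n + ℓ)) ∧
      A.card ^ k ≤ (Fintype.card ι * K) ^ k * W.card := by
  induction k with
  | zero =>
    refine ⟨{v₀}, ?_, by simp⟩
    intro w hw
    rw [Finset.mem_singleton] at hw
    rw [hw]
    simp
  | succ k ih =>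
    obtain ⟨W, hW, hcard⟩ := ih
    refine ⟨(A ×ˢ W).image (fun p => g p.1 • F (φ p.1 p.2) • p.2), ?_, ?_⟩
    · intro z hz
      rw [Finset.mem_image] at hz
      obtain ⟨⟨v, w⟩, hvw, rfl⟩ := hz
      rw [Finset.mem_product] at hvw
      simp only at hvw ⊢
      have e1 := hG.dist_triangle (u := v₀) (v := g v • v₀) (w := g v • F (φ v w) • w)
      have e2 := hG.dist_triangle (u := g v • v₀) (v := g v • F (φ v w) • v₀)
        (w := g v • F (φ v w) • w)
      rw [hdist, hdist, hdist, hdist] at e2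
      rw [hdist] at e1
      have e3 := hA v hvw.1
      have e4 := hF (φ v w)
      have e5 := hW w hvw.2
      rw [hg] at e1
      have : (k + 1) * (n + ℓ) = k * (n + ℓ) + n + ℓ := by ring
      omega
    · have key : (A ×ˢ W).card ≤ (Fintype.card ι * K) *
          ((A ×ˢ W).image (fun p => g p.1 • F (φ p.1 p.2) • p.2)).card := by
        apply Finset.card_le_mul_card_image
        intro z _
        have hsub : (A ×ˢ W).filter (fun p => g p.1 • F (φ p.1 p.2) • p.2 = z) ⊆
            Finset.univ.biUnion (fun i : ι =>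
              (A.filter (fun v => ∃ w, φ v w = i ∧ g v • F i • w = z)).image
                (fun v => (v, (F i)⁻¹ • (g v)⁻¹ • z))) := by
          rintro ⟨v, w⟩ hp
          rw [Finset.mem_filter, Finset.mem_product] at hp
          rw [Finset.mem_biUnion]
          refine ⟨φ v w, Finset.mem_univ _, ?_⟩
          rw [Finset.mem_image]
          refine ⟨v, Finset.mem_filter.2 ⟨hp.1.1, w, rfl, hp.2⟩, ?_⟩
          rw [← hp.2]
          simp
        refine (Finset.card_le_card hsub).trans ?_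
        refine (Finset.card_biUnion_le_card_mul _ _ K ?_).trans_eq (by rw [Finset.card_univ])
        intro i _
        exact (Finset.card_image_le).trans (hK i z)
      rw [Finset.card_product] at key
      calc A.card ^ (k + 1) = A.card * A.card ^ k := by ring
        _ ≤ A.card * ((Fintype.card ι * K) ^ k * W.card) := Nat.mul_le_mul_left _ hcard
        _ = (Fintype.card ι * K) ^ k * (A.card * W.card) := by ring
        _ ≤ (Fintype.card ι * K) ^ k * ((Fintype.card ι * K) *
          ((A ×ˢ W).image (fun p => g p.1 • F (φ p.1 p.2) • p.2)).card) :=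
            Nat.mul_le_mul_left _ key
        _ = _ := by ring

end Pool.Agent.EXB
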