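import Mathlib

/-!
# Balls and Cheeger constants
-/

set_option autoImplicit false

namespace Pool.Agent.EXB

variable {V : Type*}

/-- The ball `B(v, r)`: vertices at graph distance at most `r` from `v`. -/
def gball (G : SimpleGraph V) (v : V) (r : ℕ) : Set V := {x | G.dist v x ≤ r}

/-- The edges of `G` joining `S` to `B \ S`, each listed once, from its endpoint in `S`. -/
def edgeBoundary (G : SimpleGraph V) (B S : Set V) : Set (V × V) :=
  {e | e.1 ∈ S ∧ e.2 ∈ B \ S ∧ G.Adj e.1 e.2}

/-- The Cheeger constant of the induced subgraph on the finite set `B` is at least `ε`. -/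
def CheegerGE (G : SimpleGraph V) (B : Set V) (ε : ℝ) : Prop :=
  ∀ S ⊆ B, S.Nonempty → 2 * S.ncard ≤ B.ncard → ε * S.ncard ≤ (edgeBoundary G B S).ncard

end Pool.Agent.EXB
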