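import Pool.Agent.EXB.Defs

/-!
# Expanding balls in vertex-transitive graphs force growth beyond purely exponential

Let `G` be a connected infinite vertex-transitive graph of degree at most `D`, with exponential
growth rate `lam`. If infinitely many balls have Cheeger constant at least `ε`, then for every
`C ≥ 1` at most `A * C ^ κ` of them have at most `C * lam ^ n` vertices, with `A` and `κ`
depending only on `D` and `ε`.
-/

set_option autoImplicit false

open scoped Classical Topology
open Filter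

namespace Pool.Agent.EXB

variable {V : Type*}

/-- The automorphism group of `G` acts transitively on the vertices. -/
def VertexTransitive (G : SimpleGraph V) : Prop := ∀ u v : V, ∃ φ : G ≃g G, φ u = v

/-- The points of `U` all of whose neighbours in `B` lie in `U`. -/
noncomputable def peel (G : SimpleGraph V) (B U : Finset V) : Finset V :=
  U.filter (fun x => ∀ y ∈ B, G.Adj x y → y ∈ U)

/-- Iterated peeling. -/
noncomputable def peelIter (G : SimpleGraph V) (B U : Finset V) : ℕ → Finset V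
  | 0 => U
  | t + 1 => peel G B (peelIter G B U t)

theorem peel_subset (G : SimpleGraph V) (B U : Finset V) : peel G B U ⊆ U :=
  Finset.filter_subset _ _

theorem peelIter_subset (G : SimpleGraph V) (B U : Finset V) (t : ℕ) :
    peelIter G B U t ⊆ U := by
  induction t with
  | zero => exact Finset.Subset.refl _
  | succ t ih => exact (peel_subset G B _).trans ih

theorem peel_card {G : SimpleGraph V} {B U : Finset V} {ε D : ℝ}
    (hB : CheegerGE G (B : Set V) ε) (hdeg : ∀ x ∈ B, ((B.filter (G.Adj x)).card : ℝ) ≤ D)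
    (hU : U ⊆ B) (hU2 : 2 * U.card ≤ B.card) :
    D * (peel G B U).card ≤ (D - ε) * U.card := by
  rcases U.eq_empty_or_nonempty with rfl | hne
  · simp [peel]
  have h1 := hB (U : Set V) (by exact_mod_cast hU) (by exact_mod_cast hne)
    (by rw [Set.ncard_coe_finset, Set.ncard_coe_finset]; exact hU2)
  rw [Set.ncard_coe_finset] at h1
  have h2 : edgeBoundary G (B : Set V) (U : Set V) =
      ((U.sigma (fun x => (B \ U).filter (G.Adj x))).image
        (fun p : (_ : V) × V => (p.1, p.2)) : Finset (V × V)) := by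
    ext ⟨x, y⟩
    simp only [edgeBoundary, Set.mem_ofPred_eq, Finset.coe_image, Set.mem_image, Finset.mem_coe,
      Finset.mem_sigma, Finset.mem_filter, Finset.mem_sdiff, Set.mem_sdiff, Prod.mk.injEq]
    constructor
    · rintro ⟨h1, h2, h3⟩
      exact ⟨⟨x, y⟩, ⟨h1, h2, h3⟩, rfl, rfl⟩
    · rintro ⟨⟨x', y'⟩, ⟨h1, h2, h3⟩, rfl, rfl⟩
      exact ⟨h1, h2, h3⟩
  have h3 : ((edgeBoundary G (B : Set V) (U : Set V)).ncard : ℝ) ≤
      D * ((U \ peel G B U).card : ℝ) := by
    rw [h2, Set.ncard_coe_finset]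
    have h4 : ((U.sigma (fun x => (B \ U).filter (G.Adj x))).image
        (fun p : (_ : V) × V => (p.1, p.2))).card ≤
        ∑ x ∈ U, ((B \ U).filter (G.Adj x)).card := by
      refine Finset.card_image_le.trans ?_
      rw [Finset.card_sigma]
    have h5 : ∑ x ∈ U, ((B \ U).filter (G.Adj x)).card =
        ∑ x ∈ U \ peel G B U, ((B \ U).filter (G.Adj x)).card := by
      symm
      apply Finset.sum_subset Finset.sdiff_subset
      intro x hx hx'
      have hxp : x ∈ peel G B U := by
        by_contra hcon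
        exact hx' (Finset.mem_sdiff.2 ⟨hx, hcon⟩)
      rw [Finset.card_eq_zero, Finset.filter_eq_empty_iff]
      intro y hy hadj
      rw [Finset.mem_sdiff] at hy
      exact hy.2 ((Finset.mem_filter.1 hxp).2 y hy.1 hadj)
    calc ((((U.sigma (fun x => (B \ U).filter (G.Adj x))).image
        (fun p : (_ : V) × V => (p.1, p.2))).card : ℕ) : ℝ)
        ≤ ((∑ x ∈ U \ peel G B U, ((B \ U).filter (G.Adj x)).card : ℕ) : ℝ) := by
          exact_mod_cast h4.trans h5.le
      _ = ∑ x ∈ U \ peel G B U, (((B \ U).filter (G.Adj x)).card : ℝ) := by push_cast; rfl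
      _ ≤ ∑ _x ∈ U \ peel G B U, D := by
          apply Finset.sum_le_sum
          intro x hx
          have hxB : x ∈ B := hU (Finset.mem_sdiff.1 hx).1
          refine le_trans ?_ (hdeg x hxB)
          exact_mod_cast Finset.card_le_card
            (Finset.filter_subset_filter _ Finset.sdiff_subset)
      _ = D * ((U \ peel G B U).card : ℝ) := by
          rw [Finset.sum_const, nsmul_eq_mul, mul_comm]
  have h6 : ((U \ peel G B U).card : ℝ) = U.card - (peel G B U).card := by
    rw [Finset.card_sdiff_of_subset (peel_subset G B U),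
      Nat.cast_sub (Finset.card_le_card (peel_subset G B U))]
  rw [h6] at h3
  nlinarith [h1.trans h3]

theorem peelIter_card {G : SimpleGraph V} {B U : Finset V} {ε D : ℝ} (hD : 0 < D) (hεD : ε ≤ D)
    (hB : CheegerGE G (B : Set V) ε) (hdeg : ∀ x ∈ B, ((B.filter (G.Adj x)).card : ℝ) ≤ D)
    (hU : U ⊆ B) (hU2 : 2 * U.card ≤ B.card) (t : ℕ) :
    ((peelIter G B U t).card : ℝ) ≤ (1 - ε / D) ^ t * U.card := by
  induction t with
  | zero => simp [peelIter]
  | succ t ih =>
    have hsub := peelIter_subset G B U t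
    have h1 := peel_card hB hdeg (hsub.trans hU)
      (le_trans (Nat.mul_le_mul_left 2 (Finset.card_le_card hsub)) hU2)
    have h2 : ((peelIter G B U (t + 1)).card : ℝ) ≤ (1 - ε / D) * (peelIter G B U t).card := by
      have h3 : (1 - ε / D) = (D - ε) / D := by field_simp
      rw [h3, div_mul_eq_mul_div, le_div_iff₀ hD, mul_comm]
      exact h1
    have h4 : 0 ≤ 1 - ε / D := by
      rw [sub_nonneg, div_le_one hD]
      exact hεD
    calc ((peelIter G B U (t + 1)).card : ℝ) ≤ (1 - ε / D) * (peelIter G B U t).card := h2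
      _ ≤ (1 - ε / D) * ((1 - ε / D) ^ t * U.card) := mul_le_mul_of_nonneg_left ih h4
      _ = (1 - ε / D) ^ (t + 1) * U.card := by ring

theorem exists_of_not_mem_peelIter {G : SimpleGraph V} (hG : G.Connected) {B U : Finset V}
    (t : ℕ) {x : V} (hx : x ∈ U) (hxt : x ∉ peelIter G B U t) :
    ∃ y ∈ B, y ∉ U ∧ G.dist x y ≤ t := by
  induction t generalizing x with
  | zero => exact absurd hx hxt
  | succ t ih =>
    by_cases h : x ∈ peelIter G B U t
    · have h1 : ∃ y ∈ B, G.Adj x y ∧ y ∉ peelIter G B U t := by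
        by_contra hcon
        push Not at hcon
        exact hxt (Finset.mem_filter.2 ⟨h, hcon⟩)
      obtain ⟨y, hyB, hxy, hy⟩ := h1
      have hd : G.dist x y = 1 := SimpleGraph.dist_eq_one_iff_adj.2 hxy
      by_cases hyU : y ∈ U
      · obtain ⟨z, hzB, hzU, hyz⟩ := ih hyU hy
        refine ⟨z, hzB, hzU, ?_⟩
        have := hG.dist_triangle (u := x) (v := y) (w := z)
        omega
      · exact ⟨y, hyB, hyU, by omega⟩
    · obtain ⟨y, h1, h2, h3⟩ := ih hx h
      exact ⟨y, h1, h2, by omega⟩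

/-- A nondecreasing integer sequence with small range has few strict increases. -/
theorem card_increases (h : ℕ → ℤ) (n : ℕ) (T : ℤ) (hmono : ∀ i < n, h i ≤ h (i + 1))
    (hlo : -T ≤ h 0) (hhi : h n ≤ T) :
    (((Finset.range n).filter (fun i => h i < h (i + 1))).card : ℤ) ≤ 2 * T := by
  have key : ∀ m ≤ n, (((Finset.range m).filter (fun i => h i < h (i + 1))).card : ℤ) ≤
      h m - h 0 := by
    intro m
    induction m with
    | zero => intro _; simp
    | succ m ih =>
      intro hm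
      have h1 := ih (by omega)
      have h2 := hmono m (by omega)
      rw [Finset.range_add_one, Finset.filter_insert]
      split_ifs with hlt
      · rw [Finset.card_insert_of_notMem (by simp)]
        push_cast
        omega
      · omega
  have := key n le_rfl
  omega

theorem CheegerGE.mono {G : SimpleGraph V} {B : Set V} {ε ε' : ℝ} (h : CheegerGE G B ε)
    (hε : ε' ≤ ε) : CheegerGE G B ε' := by
  intro S hS hne hcard
  refine le_trans ?_ (h S hS hne hcard)
  exact mul_le_mul_of_nonneg_right hε (Nat.cast_nonneg _)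

/-- Geodesics, parametrised from `x` towards `o`. -/
theorem exists_geodesic {G : SimpleGraph V} (hG : G.Connected) (o x : V) :
    ∃ p : ℕ → V, (∀ s ≤ G.dist o x, G.dist (p s) x = s ∧ G.dist o (p s) + s = G.dist o x) ∧
      ∀ s s', s ≤ s' → s' ≤ G.dist o x → G.dist (p s') (p s) = s' - s := by
  obtain ⟨q, hq⟩ := hG.exists_walk_length_eq_dist x o
  rw [SimpleGraph.dist_comm] at hq
  have h1 : ∀ s s', s ≤ s' → G.dist (q.getVert s) (q.getVert s') ≤ s' - s := by
    intro s s' hs
    have h2 := SimpleGraph.dist_le ((q.drop s).take (s' - s))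
    rw [SimpleGraph.Walk.take_length] at h2
    have h3 : (q.drop s).getVert (s' - s) = q.getVert s' := by
      rw [SimpleGraph.Walk.drop_getVert]
      congr 1
      omega
    rw [h3] at h2
    exact h2.trans (min_le_left _ _)
  have h0 : q.getVert 0 = x := q.getVert_zero
  have hlast : q.getVert (G.dist o x) = o := by
    rw [← hq]
    exact q.getVert_length
  refine ⟨q.getVert, ?_, ?_⟩
  · intro s hs
    have e1 := h1 0 s (Nat.zero_le _)
    have e2 := h1 s (G.dist o x) hs
    rw [h0] at e1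
    rw [hlast] at e2
    have e3 := hG.dist_triangle (u := o) (v := q.getVert s) (w := x)
    rw [SimpleGraph.dist_comm (u := q.getVert s) (v := x)] at e3
    rw [SimpleGraph.dist_comm (u := q.getVert s) (v := x),
      SimpleGraph.dist_comm (u := o) (v := q.getVert s)]
    rw [SimpleGraph.dist_comm (u := o) (v := q.getVert s)] at e3
    constructor <;> omega
  · intro s s' hs hs'
    have e0 := h1 s s' hs
    have e1 := h1 0 s (Nat.zero_le _)
    have e2 := h1 s' (G.dist o x) hs'
    rw [h0] at e1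
    rw [hlast] at e2
    have e3 := hG.dist_triangle (u := x) (v := q.getVert s) (w := q.getVert s')
    have e4 := hG.dist_triangle (u := x) (v := q.getVert s') (w := o)
    rw [SimpleGraph.dist_comm (u := x) (v := o)] at e4
    rw [SimpleGraph.dist_comm (u := q.getVert s') (v := q.getVert s)]
    omega

/-- Choice of a good radius `m`. -/
theorem exists_good_radius (b : ℕ → ℝ) (lam : ℝ) (hlam : 0 < lam) (hb : ∀ n, lam ^ n ≤ b n)
    (R : ℕ) : ∃ m, R ≤ m ∧ ∀ r ≤ R, b (m - r) * lam ^ r ≤ 2 * b m := by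
  by_contra hcon
  push Not at hcon
  -- u n = b n / lam ^ n
  obtain ⟨u, hu⟩ : ∃ u : ℕ → ℝ, ∀ n, u n = b n / lam ^ n := ⟨_, fun _ => rfl⟩
  have hu1 : ∀ n, 1 ≤ u n := by
    intro n
    rw [hu, le_div_iff₀ (by positivity)]
    simpa using hb n
  have hdrop : ∀ m, R ≤ m → ∃ r ≤ R, 0 < r ∧ 2 * u m < u (m - r) := by
    intro m hm
    obtain ⟨r, hr, hlt⟩ := hcon m hm
    have hbm : 0 < b m := lt_of_lt_of_le (by positivity) (hb m)
    have hr0 : 0 < r := by
      rcases Nat.eq_zero_or_pos r with rfl | h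
      · simp at hlt
        linarith
      · exact h
    refine ⟨r, hr, hr0, ?_⟩
    rw [hu, hu]
    have hpow : lam ^ m = lam ^ (m - r) * lam ^ r := by
      rw [← pow_add]; congr 1; omega
    rw [hpow, lt_div_iff₀ (by positivity)]
    calc 2 * (b m / (lam ^ (m - r) * lam ^ r)) * lam ^ (m - r) = 2 * b m / lam ^ r := by
          field_simp
      _ < b (m - r) := by
          rw [div_lt_iff₀ (by positivity)]
          exact hlt
  obtain ⟨U, hU⟩ : ∃ U : ℝ, ∀ n < R, u n ≤ U := by
    refine ⟨∑ n ∈ Finset.range R, u n, ?_⟩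
    intro n hn
    exact Finset.single_le_sum (f := u) (fun i _ => le_trans zero_le_one (hu1 i))
      (Finset.mem_range.2 hn)
  have hU0 : ∀ m, u m ≤ U := by
    intro m
    induction m using Nat.strong_induction_on with
    | _ m ih =>
      rcases Nat.lt_or_ge m R with h | h
      · exact hU m h
      · obtain ⟨r, hr, hr0, hlt⟩ := hdrop m h
        have h1 := ih (m - r) (by omega)
        have h2 := hu1 m
        linarith
  have hUs : ∀ s m, R * s ≤ m → u m ≤ U / 2 ^ s := by
    intro s
    induction s with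
    | zero => intro m _; simpa using hU0 m
    | succ s ih =>
      intro m hm
      rw [Nat.mul_succ] at hm
      obtain ⟨r, hr, hr0, hlt⟩ := hdrop m (by omega)
      have h1 := ih (m - r) (by omega)
      rw [pow_succ, ← div_div]
      linarith
  obtain ⟨s, hs⟩ := pow_unbounded_of_one_lt U (one_lt_two)
  have h1 := hUs s (R * s) le_rfl
  have h2 := hu1 (R * s)
  have h3 : U / 2 ^ s < 1 := by
    rw [div_lt_one (by positivity)]
    exact hs
  linarith

theorem core {V : Type*} {G : SimpleGraph V} (hG : G.Connected) (o : V) (Bf : V → ℕ → Finset V)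
    (hBf : ∀ v r x, x ∈ Bf v r ↔ G.dist v x ≤ r) (b : ℕ → ℕ) (hb : ∀ v r, (Bf v r).card = b r)
    (ε D : ℝ) (hεD : ε ≤ D) (hD : 0 < D)
    (hdeg : ∀ (B : Finset V) (x : V), ((B.filter (G.Adj x)).card : ℝ) ≤ D)
    (j : ℕ) (hj : ∀ n, 2 * b n ≤ b (n + j)) (lam : ℝ) (hlam : 0 < lam)
    (hlb : ∀ n, lam ^ n ≤ b n) (C : ℝ) (hC : 0 ≤ C) (t : ℕ)
    (ht : 16 * (C * b j * (1 - ε / D) ^ t) ≤ 1) (N : ℕ) (ρ : ℕ → ℕ) (hρ0 : j ≤ ρ 0)
    (hρ : ∀ i, ρ i + j ≤ ρ (i + 1))
    (hexp : ∀ i < N, ∀ v, CheegerGE G ((Bf v (ρ i) : Finset V) : Set V) ε)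
    (hup : ∀ i < N, (b (ρ i) : ℝ) ≤ C * lam ^ ρ i) : N ≤ 2 * (b t * (2 * t)) := by
  obtain ⟨K, hK⟩ : ∃ K, K = b t * (2 * t) := ⟨_, rfl⟩
  rw [← hK]
  by_contra hN
  push Not at hN
  have hρmono : ∀ i i', i ≤ i' → ρ i ≤ ρ i' := by
    intro i i' h
    induction h with
    | refl => exact le_rfl
    | step _ ih => exact ih.trans (le_trans (Nat.le_add_right _ _) (hρ _))
  have hρj : ∀ i, j ≤ ρ i := fun i => hρ0.trans (hρmono 0 i (Nat.zero_le i))
  have hρN : ∀ i < N, ρ i + j ≤ ρ N := fun i hi => (hρ i).trans (hρmono _ _ hi)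
  obtain ⟨m, hm, hmr⟩ := exists_good_radius (fun n => (b n : ℝ)) lam hlam hlb (ρ N)
  have hjN : j ≤ m := (hρj N).trans hm
  obtain ⟨θ, hθ⟩ : ∃ θ, θ = 1 - ε / D := ⟨_, rfl⟩
  rw [← hθ] at ht
  have hθ0 : 0 ≤ θ := by
    rw [hθ, sub_nonneg, div_le_one hD]
    exact hεD
  let A : V → V → ℕ → Finset V := fun v w r =>
    (Bf v r).filter (fun x => G.dist v x = j + G.dist w x)
  let Deep : V → V → ℕ → Finset V := fun v w r => peelIter G (Bf v r) (A v w r) t
  have hDeep : ∀ i < N, ∀ v w, ((Deep v w (ρ i)).card : ℝ) ≤ θ ^ t * (C * lam ^ ρ i) := by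
    intro i hi v w
    have h1 : A v w (ρ i) ⊆ Bf w (ρ i - j) := by
      intro x hx
      rw [Finset.mem_filter, hBf] at hx
      rw [hBf]
      omega
    have h2 : 2 * (A v w (ρ i)).card ≤ (Bf v (ρ i)).card := by
      have h3 := Finset.card_le_card h1
      have h4 := hj (ρ i - j)
      have h5 : ρ i - j + j = ρ i := Nat.sub_add_cancel (hρj i)
      rw [h5] at h4
      rw [hb] at h3 ⊢
      omega
    have h6 := peelIter_card (G := G) (B := Bf v (ρ i)) (U := A v w (ρ i)) hD hεD (hexp i hi v)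
      (fun x _ => hdeg _ x) (Finset.filter_subset _ _) h2 t
    rw [← hθ] at h6
    have h7 : ((A v w (ρ i)).card : ℝ) ≤ C * lam ^ ρ i := by
      refine le_trans ?_ (hup i hi)
      have h8 : (A v w (ρ i)).card ≤ b (ρ i) := by
        rw [← hb v]
        exact Finset.card_le_card (Finset.filter_subset _ _)
      exact_mod_cast h8
    exact h6.trans (mul_le_mul_of_nonneg_left h7 (pow_nonneg hθ0 t))
  let X : Finset V := Bf o m \ Bf o (m - j)
  have hX : (b m : ℝ) / 2 ≤ X.card := by
    have h1 : (Bf o (m - j)) ⊆ Bf o m := by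
      intro x hx
      rw [hBf] at hx ⊢
      omega
    have h2 : X.card = b m - b (m - j) := by
      rw [Finset.card_sdiff_of_subset h1, hb, hb]
    have h3 := hj (m - j)
    rw [Nat.sub_add_cancel hjN] at h3
    have h4 : b m ≤ 2 * X.card := by omega
    have h5 : (b m : ℝ) ≤ 2 * X.card := by exact_mod_cast h4
    linarith
  have hch : ∀ x, ∃ p : ℕ → V, (∀ s ≤ G.dist o x, G.dist (p s) x = s ∧
      G.dist o (p s) + s = G.dist o x) ∧
      ∀ s s', s ≤ s' → s' ≤ G.dist o x → G.dist (p s') (p s) = s' - s :=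
    fun x => exists_geodesic hG o x
  choose p hp1 hp2 using hch
  have hXd : ∀ x ∈ X, G.dist o x ≤ m ∧ ∀ i < N, ρ i ≤ G.dist o x := by
    intro x hx
    rw [Finset.mem_sdiff, hBf, hBf] at hx
    refine ⟨hx.1, fun i hi => ?_⟩
    have := hρN i hi
    omega
  have hcount : ∀ x ∈ X, N ≤ ((Finset.range N).filter (fun i =>
      x ∈ Deep (p x (ρ i)) (p x (ρ i - j)) (ρ i))).card + K := by
    intro x hx
    obtain ⟨hxm, hxρ⟩ := hXd x hx
    have hsub : (Finset.range N).filter (fun i =>
        ¬ x ∈ Deep (p x (ρ i)) (p x (ρ i - j)) (ρ i)) ⊆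
        (Bf x t).biUnion (fun y => (Finset.range N).filter (fun i =>
          (G.dist (p x (ρ i)) y : ℤ) - ρ i <
            (G.dist (p x (ρ i - j)) y : ℤ) - (ρ i - j : ℕ))) := by
      intro i hi
      rw [Finset.mem_filter, Finset.mem_range] at hi
      obtain ⟨hin, hnot⟩ := hi
      have e0 := hxρ i hin
      have e1 := (hp1 x (ρ i) e0).1
      have e2 := (hp1 x (ρ i - j) (by omega)).1
      have e4 := hp2 x (ρ i - j) (ρ i) (by omega) e0
      have ej := hρj i
      have hxA : x ∈ A (p x (ρ i)) (p x (ρ i - j)) (ρ i) := by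
        rw [Finset.mem_filter, hBf]
        constructor <;> omega
      obtain ⟨y, hyB, hyA, hxy⟩ := exists_of_not_mem_peelIter hG t hxA hnot
      rw [Finset.mem_biUnion]
      refine ⟨y, (hBf _ _ _).2 hxy, ?_⟩
      rw [Finset.mem_filter, Finset.mem_range]
      refine ⟨hin, ?_⟩
      have hne : G.dist (p x (ρ i)) y ≠ j + G.dist (p x (ρ i - j)) y := by
        intro h
        exact hyA (Finset.mem_filter.2 ⟨hyB, h⟩)
      have e3 := hG.dist_triangle (u := p x (ρ i)) (v := p x (ρ i - j)) (w := y)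
      omega
    have hcard : ((Finset.range N).filter (fun i =>
        ¬ x ∈ Deep (p x (ρ i)) (p x (ρ i - j)) (ρ i))).card ≤ K := by
      refine (Finset.card_le_card hsub).trans ?_
      rw [hK, ← hb x t]
      apply Finset.card_biUnion_le_card_mul
      intro y hy
      rw [hBf] at hy
      -- the monotone sequence
      let h : ℕ → ℤ := fun i => match i with
        | 0 => -((G.dist (p x (ρ 0 - j)) y : ℤ) - (ρ 0 - j : ℕ))
        | i + 1 => -((G.dist (p x (ρ i)) y : ℤ) - ρ i)
      have hstep : ∀ s s', s ≤ s' → s' ≤ G.dist o x →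
          (G.dist (p x s') y : ℤ) - s' ≤ (G.dist (p x s) y : ℤ) - s := by
        intro s s' hs hs'
        have e3 := hG.dist_triangle (u := p x s') (v := p x s) (w := y)
        have e4 := hp2 x s s' hs hs'
        omega
      have hN0 : 0 < N := by omega
      have hmono : ∀ i < N, h i ≤ h (i + 1) := by
        intro i hi
        cases i with
        | zero =>
          have := hstep (ρ 0 - j) (ρ 0) (by omega) (hxρ 0 hi)
          show -((G.dist (p x (ρ 0 - j)) y : ℤ) - (ρ 0 - j : ℕ)) ≤
            -((G.dist (p x (ρ 0)) y : ℤ) - ρ 0)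
          omega
        | succ i =>
          have := hstep (ρ i) (ρ (i + 1)) (hρmono _ _ (Nat.le_succ i)) (hxρ (i + 1) hi)
          show -((G.dist (p x (ρ i)) y : ℤ) - ρ i) ≤
            -((G.dist (p x (ρ (i + 1))) y : ℤ) - ρ (i + 1))
          omega
      have hrange : ∀ s ≤ G.dist o x, -(t : ℤ) ≤ -((G.dist (p x s) y : ℤ) - s) ∧
          -((G.dist (p x s) y : ℤ) - s) ≤ t := by
        intro s hs
        have e1 := (hp1 x s hs).1
        have e3 := hG.dist_triangle (u := p x s) (v := x) (w := y)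
        have e4 := hG.dist_triangle (u := p x s) (v := y) (w := x)
        rw [SimpleGraph.dist_comm (u := y) (v := x)] at e4
        constructor <;> omega
      have hlo : -(t : ℤ) ≤ h 0 := by
        have := hxρ 0 hN0
        exact (hrange (ρ 0 - j) (by omega)).1
      have hhi : h N ≤ t := by
        obtain ⟨M, rfl⟩ : ∃ M, N = M + 1 := ⟨N - 1, by omega⟩
        exact (hrange (ρ M) (hxρ M (by omega))).2
      have h5 := card_increases h N t hmono hlo hhi
      have h6 : ((Finset.range N).filter (fun i => (G.dist (p x (ρ i)) y : ℤ) - ρ i <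
            (G.dist (p x (ρ i - j)) y : ℤ) - (ρ i - j : ℕ))) ⊆
          ((Finset.range N).filter (fun i => h i < h (i + 1))) := by
        intro i hi
        rw [Finset.mem_filter, Finset.mem_range] at hi ⊢
        refine ⟨hi.1, ?_⟩
        cases i with
        | zero =>
          show -((G.dist (p x (ρ 0 - j)) y : ℤ) - (ρ 0 - j : ℕ)) <
            -((G.dist (p x (ρ 0)) y : ℤ) - ρ 0)
          have := hi.2
          omega
        | succ i =>
          have h7 := hρ i
          have := hstep (ρ i) (ρ (i + 1) - j) (by omega)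
            ((Nat.sub_le _ _).trans (hxρ (i + 1) hi.1))
          have h8 := hi.2
          show -((G.dist (p x (ρ i)) y : ℤ) - ρ i) <
            -((G.dist (p x (ρ (i + 1))) y : ℤ) - ρ (i + 1))
          omega
      have h7 := Finset.card_le_card h6
      zify
      refine le_trans ?_ h5
      exact_mod_cast h7
    have hsplit := Finset.card_filter_add_card_filter_not (s := Finset.range N)
      (fun i => x ∈ Deep (p x (ρ i)) (p x (ρ i - j)) (ρ i))
    rw [Finset.card_range] at hsplit
    omega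
  have hdc : ∑ x ∈ X, ((Finset.range N).filter (fun i =>
      x ∈ Deep (p x (ρ i)) (p x (ρ i - j)) (ρ i))).card =
      ∑ i ∈ Finset.range N, (X.filter (fun x =>
        x ∈ Deep (p x (ρ i)) (p x (ρ i - j)) (ρ i))).card := by
    simp only [Finset.card_filter]
    exact Finset.sum_comm
  have hi_bound : ∀ i ∈ Finset.range N, ((X.filter (fun x =>
      x ∈ Deep (p x (ρ i)) (p x (ρ i - j)) (ρ i))).card : ℝ) ≤ b m / 8 := by
    intro i hi
    rw [Finset.mem_range] at hi
    have hρm : ρ i ≤ m := by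
      have := hρN i hi
      omega
    have hsub : X.filter (fun x => x ∈ Deep (p x (ρ i)) (p x (ρ i - j)) (ρ i)) ⊆
        (Bf o (m - ρ i)).biUnion (fun v => (Bf v j).biUnion (fun w => Deep v w (ρ i))) := by
      intro x hx
      rw [Finset.mem_filter] at hx
      obtain ⟨hx1, hx2⟩ := hx
      obtain ⟨hxm, hxρ⟩ := hXd x hx1
      have e0 := hxρ i hi
      have e1 := (hp1 x (ρ i) e0).2
      have e4 := hp2 x (ρ i - j) (ρ i) (by omega) e0
      rw [Finset.mem_biUnion]
      refine ⟨p x (ρ i), (hBf _ _ _).2 (by omega), ?_⟩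
      rw [Finset.mem_biUnion]
      exact ⟨p x (ρ i - j), (hBf _ _ _).2 (by omega), hx2⟩
    have hmr' := hmr (ρ i) (by have := hρN i hi; omega)
    have hnn : 0 ≤ θ ^ t := pow_nonneg hθ0 t
    calc ((X.filter (fun x => x ∈ Deep (p x (ρ i)) (p x (ρ i - j)) (ρ i))).card : ℝ)
        ≤ (((Bf o (m - ρ i)).biUnion
            (fun v => (Bf v j).biUnion (fun w => Deep v w (ρ i)))).card : ℝ) := by
          exact_mod_cast Finset.card_le_card hsub
      _ ≤ ((∑ v ∈ Bf o (m - ρ i), ∑ w ∈ Bf v j, (Deep v w (ρ i)).card : ℕ) : ℝ) := by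
          have : ((Bf o (m - ρ i)).biUnion
            (fun v => (Bf v j).biUnion (fun w => Deep v w (ρ i)))).card ≤
            ∑ v ∈ Bf o (m - ρ i), ∑ w ∈ Bf v j, (Deep v w (ρ i)).card :=
            Finset.card_biUnion_le.trans (Finset.sum_le_sum (fun v _ => Finset.card_biUnion_le))
          exact_mod_cast this
      _ = ∑ v ∈ Bf o (m - ρ i), ∑ w ∈ Bf v j, ((Deep v w (ρ i)).card : ℝ) := by
          push_cast; rfl
      _ ≤ ∑ v ∈ Bf o (m - ρ i), ∑ _w ∈ Bf v j, θ ^ t * (C * lam ^ ρ i) := by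
          apply Finset.sum_le_sum
          intro v _
          apply Finset.sum_le_sum
          intro w _
          exact hDeep i hi v w
      _ = b (m - ρ i) * (b j * (θ ^ t * (C * lam ^ ρ i))) := by
          simp only [Finset.sum_const, nsmul_eq_mul, hb]
      _ = (b (m - ρ i) * lam ^ ρ i) * (C * b j * θ ^ t) := by ring
      _ ≤ (2 * b m) * (C * b j * θ ^ t) := by
          apply mul_le_mul_of_nonneg_right hmr'
          positivity
      _ = b m / 8 * (16 * (C * b j * θ ^ t)) := by ring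
      _ ≤ b m / 8 * 1 := by
          apply mul_le_mul_of_nonneg_left ht
          positivity
      _ = b m / 8 := by ring
  have htotal : (X.card : ℝ) * (N - K) ≤ N * (b m / 8) := by
    have h1 : (X.card : ℝ) * (N - K) ≤ ((∑ x ∈ X, ((Finset.range N).filter (fun i =>
      x ∈ Deep (p x (ρ i)) (p x (ρ i - j)) (ρ i))).card : ℕ) : ℝ) := by
      push_cast
      rw [← nsmul_eq_mul, ← Finset.sum_const]
      apply Finset.sum_le_sum
      intro x hx
      have := hcount x hx
      have h2 : (N : ℝ) ≤ ((Finset.range N).filter (fun i =>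
        x ∈ Deep (p x (ρ i)) (p x (ρ i - j)) (ρ i))).card + K := by exact_mod_cast this
      linarith
    refine h1.trans ?_
    rw [hdc]
    push_cast
    have h3 := Finset.sum_le_sum hi_bound
    rw [Finset.sum_const, Finset.card_range, nsmul_eq_mul] at h3
    exact h3
  have hbm : (0 : ℝ) < b m := lt_of_lt_of_le (by positivity) (hlb m)
  have hNK : (2 : ℝ) * K + 1 ≤ N := by exact_mod_cast hN
  have hK0 : (0 : ℝ) ≤ K := Nat.cast_nonneg _
  have h1 : (b m : ℝ) / 2 * (N - K) ≤ N * (b m / 8) := by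
    refine le_trans (mul_le_mul_of_nonneg_right hX ?_) htotal
    linarith
  have h2 : (b m : ℝ) * (4 * (N - K)) ≤ b m * N := by linarith
  have h3 := le_of_mul_le_mul_left h2 hbm
  linarith

/-- Well separated elements of a large finite set of natural numbers. -/
theorem exists_separated (j N : ℕ) (F : Finset ℕ) (hF : j * N < F.card) :
    ∃ ρ : ℕ → ℕ, (∀ i < N, ρ i ∈ F) ∧ j ≤ ρ 0 ∧ ∀ i, ρ i + j ≤ ρ (i + 1) := by
  let f := F.orderEmbOfFin rfl
  let g : ℕ → ℕ := fun i => if h : i < F.card then f ⟨i, h⟩ else F.sup id + 1 + i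
  have hg1 : ∀ i, ∀ h : i < F.card, g i = f ⟨i, h⟩ := fun i h => by simp only [g, h, dif_pos]
  have hg2 : ∀ i, ¬ i < F.card → g i = F.sup id + 1 + i := fun i h => by
    simp only [g, h, dif_neg, not_false_eq_true]
  have hfle : ∀ i, f i ≤ F.sup id := fun i =>
    Finset.le_sup (f := id) (F.orderEmbOfFin_mem rfl i)
  have hmono : StrictMono g := by
    apply strictMono_nat_of_lt_succ
    intro i
    by_cases h1 : i + 1 < F.card
    · rw [hg1 i (by omega), hg1 (i + 1) h1]
      exact f.strictMono (by simp [Fin.lt_def])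
    · rw [hg2 (i + 1) h1]
      by_cases h2 : i < F.card
      · rw [hg1 i h2]
        have := hfle ⟨i, h2⟩
        omega
      · rw [hg2 i h2]
        omega
  refine ⟨fun i => g (j * (i + 1)), ?_, ?_, ?_⟩
  · intro i hi
    have h1 : j * (i + 1) < F.card := lt_of_le_of_lt (Nat.mul_le_mul_left j hi) hF
    show g (j * (i + 1)) ∈ F
    rw [hg1 _ h1]
    exact F.orderEmbOfFin_mem rfl _
  · show j ≤ g (j * (0 + 1))
    have := hmono.le_apply (x := j * (0 + 1))
    omega
  · intro i
    show g (j * (i + 1)) + j ≤ g (j * (i + 1 + 1))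
    have h1 := hmono.add_le_nat j (j * (i + 1))
    have h2 : j + j * (i + 1) = j * (i + 1 + 1) := by ring
    rw [h2] at h1
    omega

theorem dist_iso_le {V : Type*} {G : SimpleGraph V} (hG : G.Connected) (φ : G ≃g G) (u v : V) :
    G.dist (φ u) (φ v) ≤ G.dist u v := by
  obtain ⟨q, hq⟩ := hG.exists_walk_length_eq_dist u v
  have := SimpleGraph.dist_le (q.map φ.toHom)
  rw [SimpleGraph.Walk.length_map, hq] at this
  exact this

theorem dist_iso {V : Type*} {G : SimpleGraph V} (hG : G.Connected) (φ : G ≃g G) (u v : V) :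
    G.dist (φ u) (φ v) = G.dist u v := by
  apply le_antisymm (dist_iso_le hG φ u v)
  have := dist_iso_le hG φ.symm (φ u) (φ v)
  simpa using this

theorem gball_iso {V : Type*} {G : SimpleGraph V} (hG : G.Connected) (φ : G ≃g G) (u : V)
    (r : ℕ) : gball G (φ u) r = φ '' gball G u r := by
  ext x
  constructor
  · intro hx
    refine ⟨φ.symm x, ?_, by simp⟩
    have := dist_iso hG φ u (φ.symm x)
    have hx' : G.dist (φ u) x ≤ r := hx
    show G.dist u (φ.symm x) ≤ r
    rw [← this]
    simpa using hx'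
  · rintro ⟨y, hy, rfl⟩
    show G.dist (φ u) (φ y) ≤ r
    rw [dist_iso hG]
    exact hy

theorem CheegerGE.iso {V : Type*} {G : SimpleGraph V} (φ : G ≃g G) {B : Set V} {ε : ℝ}
    (h : CheegerGE G B ε) : CheegerGE G (φ '' B) ε := by
  have hinj : Function.Injective φ := φ.injective
  intro S hS hne hcard
  obtain ⟨T, hTB, rfl⟩ := Set.subset_image_iff.1 hS
  rw [Set.ncard_image_of_injective _ hinj, Set.ncard_image_of_injective _ hinj] at hcard
  have h1 := h T hTB (Set.image_nonempty.1 hne) hcard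
  have h2 : edgeBoundary G (φ '' B) (φ '' T) =
      (fun e : V × V => (φ e.1, φ e.2)) '' edgeBoundary G B T := by
    ext ⟨x, y⟩
    constructor
    · rintro ⟨⟨a, ha, rfl⟩, ⟨⟨c, hc, hcy⟩, hyT⟩, hadj⟩
      simp only at hcy hyT hadj
      subst hcy
      refine ⟨(a, c), ⟨ha, ⟨hc, fun hcT => hyT ⟨c, hcT, rfl⟩⟩, ?_⟩, rfl⟩
      exact φ.map_adj_iff.1 hadj
    · rintro ⟨⟨a, c⟩, ⟨ha, ⟨hc, hcT⟩, hadj⟩, heq⟩
      simp only [Prod.mk.injEq] at heq
      obtain ⟨rfl, rfl⟩ := heq
      refine ⟨⟨a, ha, rfl⟩, ⟨⟨c, hc, rfl⟩, ?_⟩, φ.map_adj_iff.2 hadj⟩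
      rintro ⟨c', hc', hcc⟩
      exact hcT (hinj hcc ▸ hc')
  rw [Set.ncard_image_of_injective _ hinj, h2, Set.ncard_image_of_injective]
  · exact h1
  · rintro ⟨a, c⟩ ⟨a', c'⟩ heq
    simp only [Prod.mk.injEq] at heq
    rw [hinj heq.1, hinj heq.2]

theorem ball_finite {V : Type*} {G : SimpleGraph V} (hG : G.Connected)
    (hlf : ∀ v, (G.neighborSet v).Finite) (v : V) (r : ℕ) : (gball G v r).Finite := by
  induction r with
  | zero =>
    apply (Set.finite_singleton v).subset
    intro x hx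
    have hx' : G.dist v x = 0 := Nat.le_zero.1 hx
    exact ((hG.dist_eq_zero_iff).1 hx').symm
  | succ r ih =>
    apply (ih.union (ih.biUnion (fun x _ => hlf x))).subset
    intro x hx
    by_cases h : G.dist v x ≤ r
    · exact Or.inl h
    · right
      have hx' : G.dist v x ≤ r + 1 := hx
      obtain ⟨p, hp1, _⟩ := exists_geodesic hG v x
      have e1 := hp1 1 (by omega)
      refine Set.mem_biUnion (show p 1 ∈ gball G v r from ?_) ?_
      · show G.dist v (p 1) ≤ r
        omega
      · exact SimpleGraph.dist_eq_one_iff_adj.1 e1.1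

theorem ball_growth (D : ℕ) (ε : ℝ) (hε : 0 < ε) : ∃ (A : ℝ) (κ : ℕ),
    ∀ (V : Type*) (G : SimpleGraph V) (o : V) (lam : ℝ), Infinite V → G.Connected →
      VertexTransitive G →
      (∀ v, (G.neighborSet v).Finite ∧ (G.neighborSet v).ncard ≤ D) →
      Tendsto (fun n : ℕ => ((gball G o n).ncard : ℝ) ^ (1 / (n : ℝ))) atTop (𝓝 lam) →
      {n : ℕ | CheegerGE G (gball G o n) ε}.Infinite →
      ∀ C : ℝ, 1 ≤ C →
        {n : ℕ | CheegerGE G (gball G o n) ε ∧
          ((gball G o n).ncard : ℝ) ≤ C * lam ^ n}.Finite ∧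
        ({n : ℕ | CheegerGE G (gball G o n) ε ∧
          ((gball G o n).ncard : ℝ) ≤ C * lam ^ n}.ncard : ℝ) ≤ A * C ^ κ := by
  -- constants
  obtain ⟨D', hD'⟩ : ∃ D' : ℝ, D' = D + 1 := ⟨_, rfl⟩
  have hD'1 : 1 ≤ D' := by
    rw [hD']
    have : (0 : ℝ) ≤ D := Nat.cast_nonneg _
    linarith
  have hD'0 : 0 < D' := by linarith
  obtain ⟨ε', hε'⟩ : ∃ ε' : ℝ, ε' = min ε 1 := ⟨_, rfl⟩
  have hε'0 : 0 < ε' := by rw [hε']; exact lt_min hε one_pos
  have hε'D : ε' ≤ D' := by rw [hε']; exact (min_le_right _ _).trans hD'1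
  have hε'ε : ε' ≤ ε := by rw [hε']; exact min_le_left _ _
  obtain ⟨j, hj⟩ : ∃ j : ℕ, 2 < (1 + ε' / D') ^ j :=
    pow_unbounded_of_one_lt _ (by
      have : 0 < ε' / D' := by positivity
      linarith)
  obtain ⟨θ, hθ⟩ : ∃ θ, θ = 1 - ε' / D' := ⟨_, rfl⟩
  have hθ0 : 0 ≤ θ := by
    rw [hθ, sub_nonneg, div_le_one hD'0]
    exact hε'D
  have hθ1 : θ < 1 := by
    rw [hθ]
    have : 0 < ε' / D' := by positivity
    linarith
  obtain ⟨k, hk⟩ : ∃ k : ℕ, θ ^ k < 1 / 2 := exists_pow_lt_of_lt_one (by norm_num) hθ1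
  obtain ⟨κ, hκ⟩ : ∃ κ : ℕ, κ = (2 * (D + 1)) ^ k := ⟨_, rfl⟩
  refine ⟨5 * j * (32 * (D + 1) ^ j) ^ κ, κ, ?_⟩
  intro V G o lam hinf hG htrans hdeg hgr hRinf C hC
  have hfin : ∀ v r, (gball G v r).Finite := ball_finite hG (fun v => (hdeg v).1)
  let Bf : V → ℕ → Finset V := fun v r => (hfin v r).toFinset
  have hBf : ∀ v r x, x ∈ Bf v r ↔ G.dist v x ≤ r := by
    intro v r x
    simp only [Bf, Set.Finite.mem_toFinset]
    exact Iff.rfl
  have hBfs : ∀ v r, ((Bf v r : Finset V) : Set V) = gball G v r := by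
    intro v r
    simp only [Bf, Set.Finite.coe_toFinset]
  obtain ⟨b, hbdef⟩ : ∃ b : ℕ → ℕ, ∀ n, b n = (gball G o n).ncard := ⟨_, fun _ => rfl⟩
  have hb : ∀ v r, (Bf v r).card = b r := by
    intro v r
    obtain ⟨φ, hφ⟩ := htrans o v
    rw [hbdef, ← Set.ncard_image_of_injective (gball G o r) φ.injective, ← gball_iso hG, hφ,
      ← hBfs, Set.ncard_coe_finset]
  have hb1 : ∀ n, 1 ≤ b n := by
    intro n
    rw [← hb o n, Nat.one_le_iff_ne_zero]
    intro h
    rw [Finset.card_eq_zero] at h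
    have : o ∈ Bf o n := by rw [hBf]; simp
    rw [h] at this
    simp at this
  have hbmono : Monotone b := by
    intro n n' hn
    rw [← hb o n, ← hb o n']
    apply Finset.card_le_card
    intro x hx
    rw [hBf] at hx ⊢
    omega
  -- degrees
  have hdeg' : ∀ (B : Finset V) (x : V), ((B.filter (G.Adj x)).card : ℝ) ≤ D' := by
    intro B x
    have h1 : ((B.filter (G.Adj x) : Finset V) : Set V) ⊆ G.neighborSet x := by
      intro y hy
      rw [Finset.coe_filter] at hy
      exact hy.2
    have h2 := Set.ncard_le_ncard h1 (hdeg x).1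
    rw [Set.ncard_coe_finset] at h2
    have h3 : ((B.filter (G.Adj x)).card : ℝ) ≤ D := by exact_mod_cast h2.trans (hdeg x).2
    rw [hD']
    linarith
  -- upper bound b n ≤ (D+1)^n
  have hbup : ∀ n, b n ≤ (D + 1) ^ n := by
    intro n
    induction n with
    | zero =>
      rw [← hb o 0, pow_zero]
      have : Bf o 0 ⊆ {o} := by
        intro x hx
        rw [hBf] at hx
        rw [Finset.mem_singleton]
        exact ((hG.dist_eq_zero_iff).1 (Nat.le_zero.1 hx)).symm
      exact (Finset.card_le_card this).trans (by simp)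
    | succ n ih =>
      have h1 : Bf o (n + 1) ⊆ Bf o n ∪
          (Bf o n).biUnion (fun x => (Bf o (n + 1)).filter (G.Adj x)) := by
        intro x hx
        rw [Finset.mem_union]
        by_cases h : G.dist o x ≤ n
        · left; rw [hBf]; exact h
        · right
          have hx' := (hBf _ _ _).1 hx
          obtain ⟨p, hp1, _⟩ := exists_geodesic hG o x
          have e1 := hp1 1 (by omega)
          rw [Finset.mem_biUnion]
          refine ⟨p 1, (hBf _ _ _).2 (by omega), ?_⟩
          rw [Finset.mem_filter]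
          exact ⟨hx, SimpleGraph.dist_eq_one_iff_adj.1 e1.1⟩
      have h2 := (Finset.card_le_card h1).trans (Finset.card_union_le _ _)
      have h3 : ((Bf o n).biUnion (fun x => (Bf o (n + 1)).filter (G.Adj x))).card ≤
          (Bf o n).card * D := by
        apply Finset.card_biUnion_le_card_mul
        intro x _
        have h4 : (((Bf o (n + 1)).filter (G.Adj x) : Finset V) : Set V) ⊆ G.neighborSet x := by
          intro y hy
          rw [Finset.coe_filter] at hy
          exact hy.2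
        have h5 := Set.ncard_le_ncard h4 (hdeg x).1
        rw [Set.ncard_coe_finset] at h5
        exact h5.trans (hdeg x).2
      rw [hb, hb] at h2
      rw [hb] at h3
      calc b (n + 1) ≤ b n + b n * D := h2.trans (by omega)
        _ = b n * (D + 1) := by ring
        _ ≤ (D + 1) ^ n * (D + 1) := Nat.mul_le_mul_right _ ih
        _ = (D + 1) ^ (n + 1) := by ring
  -- unboundedness
  have hbunb : ∀ M, ∃ n, M ≤ b n := by
    intro M
    obtain ⟨T, hT⟩ := Infinite.exists_subset_card_eq V M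
    refine ⟨T.sup (fun x => G.dist o x), ?_⟩
    rw [← hT, ← hb o]
    apply Finset.card_le_card
    intro x hx
    rw [hBf]
    exact Finset.le_sup (f := fun x => G.dist o x) hx
  -- expansion at all centres
  have hexp : ∀ n, CheegerGE G (gball G o n) ε → ∀ v,
      CheegerGE G ((Bf v n : Finset V) : Set V) ε' := by
    intro n hn v
    obtain ⟨φ, hφ⟩ := htrans o v
    rw [hBfs, ← hφ, gball_iso hG]
    exact (hn.iso φ).mono hε'ε
  -- nonamenability
  have hgrow : ∀ n, (1 + ε' / D') * (b n : ℝ) ≤ b (n + 1) := by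
    intro n
    obtain ⟨M, hM⟩ := hbunb (2 * b n)
    obtain ⟨ρ, hρR, hρ⟩ := hRinf.exists_gt (max M (n + 1))
    have hMρ : M ≤ ρ := (le_max_left _ _).trans hρ.le
    have hnρ : n + 1 ≤ ρ := (le_max_right _ _).trans hρ.le
    have h2b : 2 * b n ≤ b ρ := hM.trans (hbmono hMρ)
    have hsub : Bf o n ⊆ Bf o ρ := by
      intro x hx
      rw [hBf] at hx ⊢
      omega
    have hne : (Bf o n).Nonempty := by
      rw [← Finset.card_pos, hb]
      exact hb1 n
    have h1 := hexp ρ hρR o ((Bf o n : Finset V) : Set V) (by exact_mod_cast hsub)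
      (by exact_mod_cast hne) (by rw [Set.ncard_coe_finset, Set.ncard_coe_finset, hb, hb]; exact h2b)
    rw [Set.ncard_coe_finset, hb] at h1
    have h2 : edgeBoundary G ((Bf o ρ : Finset V) : Set V) ((Bf o n : Finset V) : Set V) ⊆
        ((((Bf o (n + 1) \ Bf o n).sigma (fun y => (Bf o n).filter (G.Adj y))).image
        (fun q : (_ : V) × V => (q.2, q.1)) : Finset (V × V)) : Set (V × V)) := by
      rintro ⟨x, y⟩ ⟨hx, ⟨hy1, hy2⟩, hadj⟩
      simp only [Finset.mem_coe] at hx hy1 hy2 hadj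
      rw [Finset.coe_image]
      refine ⟨⟨y, x⟩, ?_, rfl⟩
      rw [Finset.mem_coe, Finset.mem_sigma, Finset.mem_sdiff, Finset.mem_filter]
      refine ⟨⟨?_, hy2⟩, hx, hadj.symm⟩
      rw [hBf] at hx ⊢
      show G.dist o y ≤ n + 1
      have e1 : G.dist x y = 1 := SimpleGraph.dist_eq_one_iff_adj.2 hadj
      have e2 := hG.dist_triangle (u := o) (v := x) (w := y)
      omega
    have h3 : ((edgeBoundary G ((Bf o ρ : Finset V) : Set V)
        ((Bf o n : Finset V) : Set V)).ncard : ℝ) ≤ D' * (b (n + 1) - b n) := by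
      have h4 := Set.ncard_le_ncard h2 (Finset.finite_toSet _)
      rw [Set.ncard_coe_finset] at h4
      have h5 : (((Bf o (n + 1) \ Bf o n).sigma (fun y => (Bf o n).filter (G.Adj y))).image
        (fun q : (_ : V) × V => (q.2, q.1))).card ≤
          ∑ y ∈ Bf o (n + 1) \ Bf o n, ((Bf o n).filter (G.Adj y)).card := by
        refine Finset.card_image_le.trans ?_
        rw [Finset.card_sigma]
      have h6 : Bf o n ⊆ Bf o (n + 1) := by
        intro x hx
        rw [hBf] at hx ⊢
        omega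
      calc ((edgeBoundary G ((Bf o ρ : Finset V) : Set V)
          ((Bf o n : Finset V) : Set V)).ncard : ℝ)
          ≤ ((∑ y ∈ Bf o (n + 1) \ Bf o n, ((Bf o n).filter (G.Adj y)).card : ℕ) : ℝ) := by
            exact_mod_cast h4.trans h5
        _ = ∑ y ∈ Bf o (n + 1) \ Bf o n, (((Bf o n).filter (G.Adj y)).card : ℝ) := by
            push_cast; rfl
        _ ≤ ∑ _y ∈ Bf o (n + 1) \ Bf o n, D' := Finset.sum_le_sum (fun y _ => hdeg' _ y)
        _ = D' * (b (n + 1) - b n) := by
            rw [Finset.sum_const, nsmul_eq_mul, Finset.card_sdiff_of_subset h6, hb, hb,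
              Nat.cast_sub (hbmono (Nat.le_succ n)), mul_comm]
    have h4 := h1.trans h3
    have h5 : ε' / D' * b n ≤ b (n + 1) - b n := by
      rw [div_mul_eq_mul_div, div_le_iff₀ hD'0]
      linarith
    linarith
  have hgrow' : ∀ n i, (1 + ε' / D') ^ i * (b n : ℝ) ≤ b (n + i) := by
    intro n i
    induction i with
    | zero => simp
    | succ i ih =>
      have h1 := hgrow (n + i)
      have h0 : 0 < 1 + ε' / D' := by positivity
      calc (1 + ε' / D') ^ (i + 1) * (b n : ℝ)
          = (1 + ε' / D') * ((1 + ε' / D') ^ i * (b n : ℝ)) := by ring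
        _ ≤ (1 + ε' / D') * b (n + i) := mul_le_mul_of_nonneg_left ih h0.le
        _ ≤ b (n + (i + 1)) := h1
  have hj2 : ∀ n, 2 * b n ≤ b (n + j) := by
    intro n
    have h1 := hgrow' n j
    have h2 : (2 : ℝ) * b n ≤ b (n + j) :=
      (mul_le_mul_of_nonneg_right hj.le (Nat.cast_nonneg _)).trans h1
    exact_mod_cast h2
  -- growth rate
  have hsubm : ∀ m n, b (m + n) ≤ b m * b n := by
    intro m n
    have h1 : Bf o (m + n) ⊆ (Bf o m).biUnion (fun v => Bf v n) := by
      intro x hx
      rw [hBf] at hx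
      rw [Finset.mem_biUnion]
      by_cases h : G.dist o x ≤ m
      · exact ⟨x, (hBf _ _ _).2 h, (hBf _ _ _).2 (by simp)⟩
      · obtain ⟨p, hp1, _⟩ := exists_geodesic hG o x
        have e1 := hp1 (G.dist o x - m) (by omega)
        exact ⟨p (G.dist o x - m), (hBf _ _ _).2 (by omega), (hBf _ _ _).2 (by omega)⟩
    have h2 : ((Bf o m).biUnion (fun v => Bf v n)).card ≤ (Bf o m).card * b n := by
      apply Finset.card_biUnion_le_card_mul
      intro v _
      rw [hb]
    rw [← hb o (m + n), ← hb o m]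
    exact (Finset.card_le_card h1).trans h2
  have hpow : ∀ n i, b (i * n) ≤ b n ^ i := by
    intro n i
    induction i with
    | zero =>
      rw [Nat.zero_mul, pow_zero]
      have := hbup 0
      simpa using this
    | succ i ih =>
      rw [Nat.succ_mul]
      refine (hsubm _ _).trans ?_
      rw [pow_succ]
      exact Nat.mul_le_mul_right _ ih
  have hgr' : Tendsto (fun n : ℕ => (b n : ℝ) ^ (1 / (n : ℝ))) atTop (𝓝 lam) := by
    refine hgr.congr ?_
    intro n
    rw [hbdef]
  have hlam1 : 1 ≤ lam := by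
    apply ge_of_tendsto' hgr'
    intro n
    apply Real.one_le_rpow
    · exact_mod_cast hb1 n
    · positivity
  have hlb : ∀ n, lam ^ n ≤ b n := by
    intro n
    rcases Nat.eq_zero_or_pos n with rfl | hn
    · simp only [pow_zero]
      exact_mod_cast hb1 0
    · have hn0 : (n : ℝ) ≠ 0 := by positivity
      have h1 : Tendsto (fun i : ℕ => (i + 1) * n) atTop atTop :=
        tendsto_atTop_mono (fun i => show i ≤ (i + 1) * n from
          (Nat.le_succ i).trans (Nat.le_mul_of_pos_right _ hn)) tendsto_id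
      have h2 := hgr'.comp h1
      have h3 : lam ≤ (b n : ℝ) ^ (1 / (n : ℝ)) := by
        apply le_of_tendsto' h2
        intro i
        show ((b ((i + 1) * n) : ℕ) : ℝ) ^ (1 / (((i + 1) * n : ℕ) : ℝ)) ≤ _
        have h4 : ((b ((i + 1) * n) : ℕ) : ℝ) ≤ (b n : ℝ) ^ (i + 1) := by
          exact_mod_cast hpow n (i + 1)
        have h5 : (0 : ℝ) ≤ b n := Nat.cast_nonneg _
        calc ((b ((i + 1) * n) : ℕ) : ℝ) ^ (1 / (((i + 1) * n : ℕ) : ℝ))
            ≤ ((b n : ℝ) ^ (i + 1)) ^ (1 / (((i + 1) * n : ℕ) : ℝ)) := by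
              apply Real.rpow_le_rpow (Nat.cast_nonneg _) h4
              positivity
          _ = (b n : ℝ) ^ (1 / (n : ℝ)) := by
              rw [← Real.rpow_natCast, ← Real.rpow_mul h5]
              congr 1
              push_cast
              field_simp
      calc lam ^ n ≤ ((b n : ℝ) ^ (1 / (n : ℝ))) ^ n :=
            pow_le_pow_left₀ (by linarith) h3 n
        _ = b n := by
            rw [← Real.rpow_natCast, ← Real.rpow_mul (Nat.cast_nonneg _)]
            rw [one_div, inv_mul_cancel₀ hn0, Real.rpow_one]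
  -- choice of t
  obtain ⟨y, hy⟩ : ∃ y : ℝ, y = 16 * C * (D + 1) ^ j := ⟨_, rfl⟩
  have hDj : (1 : ℝ) ≤ ((D : ℝ) + 1) ^ j := one_le_pow₀ (by
    have : (0 : ℝ) ≤ D := Nat.cast_nonneg _
    linarith)
  have hy1 : 1 ≤ y := by
    rw [hy]
    nlinarith
  obtain ⟨s, hs1, hs2⟩ := exists_nat_pow_near hy1 (one_lt_two)
  obtain ⟨t, ht⟩ : ∃ t, t = k * (s + 1) := ⟨_, rfl⟩
  have hθt : θ ^ t ≤ 1 / 2 ^ (s + 1) := by
    rw [ht, pow_mul]
    calc (θ ^ k) ^ (s + 1) ≤ (1 / 2) ^ (s + 1) :=
          pow_le_pow_left₀ (pow_nonneg hθ0 k) hk.le _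
      _ = 1 / 2 ^ (s + 1) := by rw [div_pow, one_pow]
  have htt : 16 * (C * b j * (1 - ε' / D') ^ t) ≤ 1 := by
    rw [← hθ]
    have h1 : (b j : ℝ) ≤ (D + 1) ^ j := by exact_mod_cast hbup j
    have h2 : 16 * (C * b j * θ ^ t) ≤ y * (1 / 2 ^ (s + 1)) := by
      calc 16 * (C * b j * θ ^ t) = 16 * C * b j * θ ^ t := by ring
        _ ≤ 16 * C * (D + 1) ^ j * (1 / 2 ^ (s + 1)) := by
            apply mul_le_mul _ hθt (pow_nonneg hθ0 t) (by positivity)
            exact mul_le_mul_of_nonneg_left h1 (by positivity)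
        _ = y * (1 / 2 ^ (s + 1)) := by rw [hy]
    refine h2.trans ?_
    rw [mul_one_div, div_le_one (by positivity)]
    exact hs2.le
  obtain ⟨K, hK⟩ : ∃ K, K = b t * (2 * t) := ⟨_, rfl⟩
  -- main bound for finite subsets
  have hmain : ∀ F : Finset ℕ, (∀ n ∈ F, CheegerGE G (gball G o n) ε ∧
      ((gball G o n).ncard : ℝ) ≤ C * lam ^ n) → F.card ≤ j * (2 * K + 1) := by
    intro F hF
    by_contra hcon
    push Not at hcon
    obtain ⟨ρ, hρF, hρ0, hρ⟩ := exists_separated j (2 * K + 1) F hcon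
    have := core hG o Bf hBf b hb ε' D' hε'D hD'0 hdeg' j hj2 lam (by linarith) hlb C
      (by linarith) t htt (2 * K + 1) ρ hρ0 hρ
      (fun i hi v => hexp _ (hF _ (hρF i hi)).1 v)
      (fun i hi => by rw [hbdef]; exact (hF _ (hρF i hi)).2)
    rw [← hK] at this
    omega
  obtain ⟨S, hS⟩ : ∃ S : Set ℕ, S = {n : ℕ | CheegerGE G (gball G o n) ε ∧
      ((gball G o n).ncard : ℝ) ≤ C * lam ^ n} := ⟨_, rfl⟩
  rw [← hS]
  have hSfin : S.Finite := by
    by_contra hcon
    obtain ⟨F, hF1, hF2⟩ := Set.Infinite.exists_subset_card_eq hcon (j * (2 * K + 1) + 1)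
    have := hmain F (fun n hn => by
      have : n ∈ S := hF1 hn
      rw [hS] at this
      exact this)
    omega
  refine ⟨hSfin, ?_⟩
  have hScard : S.ncard ≤ j * (2 * K + 1) := by
    rw [Set.ncard_eq_toFinset_card S hSfin]
    apply hmain
    intro n hn
    rw [Set.Finite.mem_toFinset, hS] at hn
    exact hn
  -- numerical bound
  have hKb : K ≤ 2 * (2 ^ (s + 1)) ^ κ := by
    have h1 : b t ≤ (D + 1) ^ t := hbup t
    have h2 : t ≤ 2 ^ t := (Nat.lt_two_pow_self).le
    have h3 : K ≤ 2 * (2 * (D + 1)) ^ t := by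
      rw [hK, mul_pow]
      calc b t * (2 * t) ≤ (D + 1) ^ t * (2 * 2 ^ t) :=
            Nat.mul_le_mul h1 (Nat.mul_le_mul_left 2 h2)
        _ = 2 * (2 ^ t * (D + 1) ^ t) := by ring
    refine h3.trans (Nat.mul_le_mul_left 2 ?_)
    rw [ht, pow_mul, ← hκ, ← pow_mul, mul_comm (s + 1) κ, pow_mul]
    exact Nat.pow_le_pow_left (Nat.lt_two_pow_self).le _
  have h2s : (2 : ℝ) ^ (s + 1) ≤ 2 * y := by
    rw [pow_succ]
    linarith
  have hKr : (K : ℝ) ≤ 2 * (2 * y) ^ κ := by
    have h1 : (K : ℝ) ≤ 2 * (2 ^ (s + 1)) ^ κ := by exact_mod_cast hKb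
    refine h1.trans ?_
    apply mul_le_mul_of_nonneg_left _ (by norm_num)
    exact pow_le_pow_left₀ (by positivity) h2s κ
  have h2y : 2 * y = (32 * (D + 1) ^ j) * C := by rw [hy]; ring
  have h1le : 1 ≤ (2 * y) ^ κ := one_le_pow₀ (by linarith)
  calc (S.ncard : ℝ) ≤ ((j * (2 * K + 1) : ℕ) : ℝ) := by exact_mod_cast hScard
    _ = j * (2 * K + 1) := by push_cast; ring
    _ ≤ j * (5 * (2 * y) ^ κ) := by
        apply mul_le_mul_of_nonneg_left _ (Nat.cast_nonneg _)
        linarith
    _ = 5 * j * (32 * (D + 1) ^ j) ^ κ * C ^ κ := by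
        rw [h2y, mul_pow]
        ring

end Pool.Agent.EXB
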