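import Mathlib

/-!
# Cayley graphs and coarse embeddings into inner product spaces
-/

set_option autoImplicit false

namespace Pool.Agent.EXB

/-- The Cayley graph of `Γ` with respect to `S`: `x` is joined to `x * s` and `x * s⁻¹` for
`s` in `S`. -/
def cayley {Γ : Type*} [Group Γ] (S : Set Γ) : SimpleGraph Γ where
  Adj x y := x ≠ y ∧ (x⁻¹ * y ∈ S ∨ y⁻¹ * x ∈ S)
  symm := ⟨fun _ _ h => ⟨h.1.symm, h.2.symm⟩⟩
  loopless := ⟨fun _ h => h.1 rfl⟩

/-- `f` is a coarse embedding of `X` into the (real) inner product space `H`. -/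
def CoarseEmbedding {X H : Type*} [PseudoMetricSpace X] [NormedAddCommGroup H] (f : X → H) :
    Prop :=
  (∀ R : ℝ, ∃ M : ℝ, ∀ x y, dist x y ≤ R → ‖f x - f y‖ ≤ M) ∧
  (∀ M : ℝ, ∃ R : ℝ, ∀ x y, ‖f x - f y‖ ≤ M → dist x y ≤ R)

end Pool.Agent.EXB
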