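import Pool.Agent.EXB.Conc

/-!
# The Poincaré inequality for maps from expanding sets to inner product spaces
-/

set_option autoImplicit false

open scoped Classical
open Finset

namespace Pool.Agent.EXB

variable {V : Type*}

/-- Ordered pairs of adjacent points of `B`. -/
noncomputable def adjPairs (G : SimpleGraph V) (B : Finset V) : Finset (V × V) :=
  (B ×ˢ B).filter (fun p => G.Adj p.1 p.2)

theorem mem_adjPairs {G : SimpleGraph V} {B : Finset V} {p : V × V} :
    p ∈ adjPairs G B ↔ (p.1 ∈ B ∧ p.2 ∈ B) ∧ G.Adj p.1 p.2 := by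
  rw [adjPairs, Finset.mem_filter, Finset.mem_product]

/-- Layer cake form of the Cheeger inequality. -/
theorem coarea {G : SimpleGraph V} {B : Finset V} {ε : ℝ} (hB : CheegerGE G (B : Set V) ε)
    (k : ℕ) : ∀ w : V → ℝ, (∀ x, 0 ≤ w x) → (B.filter (fun x => 0 < w x)).card ≤ k →
      2 * (B.filter (fun x => 0 < w x)).card ≤ B.card →
      2 * ε * ∑ x ∈ B, w x ≤ ∑ p ∈ adjPairs G B, |w p.1 - w p.2| := by
  induction k with
  | zero =>
    intro w hw0 hk _
    have he : B.filter (fun x => 0 < w x) = ∅ := Finset.card_eq_zero.1 (Nat.le_zero.1 hk)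
    have h0 : ∑ x ∈ B, w x = 0 := by
      apply Finset.sum_eq_zero
      intro x hx
      by_contra hne
      have hpos : 0 < w x := lt_of_le_of_ne (hw0 x) (Ne.symm hne)
      have : x ∈ B.filter (fun x => 0 < w x) := Finset.mem_filter.2 ⟨hx, hpos⟩
      rw [he] at this
      simp at this
    rw [h0, mul_zero]
    exact Finset.sum_nonneg (fun _ _ => abs_nonneg _)
  | succ k ih =>
    intro w hw0 hk hhalf
    obtain ⟨U, hU⟩ : ∃ U, U = B.filter (fun x => 0 < w x) := ⟨_, rfl⟩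
    rcases U.eq_empty_or_nonempty with he | hne
    · exact ih w hw0 (by rw [← hU, he]; simp) hhalf
    obtain ⟨x0, hx0, hmin⟩ := U.exists_min_image w hne
    have hx0' : x0 ∈ B ∧ 0 < w x0 := by
      rw [hU, Finset.mem_filter] at hx0
      exact hx0
    have hmem : ∀ x, x ∈ U ↔ x ∈ B ∧ 0 < w x := by
      intro x
      rw [hU, Finset.mem_filter]
    obtain ⟨w', hw'⟩ : ∃ w' : V → ℝ, w' = fun x => if x ∈ U then w x - w x0 else 0 := ⟨_, rfl⟩
    have hw'U : ∀ x, x ∈ U → w' x = w x - w x0 := by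
      intro x hx
      rw [hw']
      simp [hx]
    have hw'N : ∀ x, x ∉ U → w' x = 0 := by
      intro x hx
      rw [hw']
      simp [hx]
    have hsub : B.filter (fun x => 0 < w' x) ⊆ U.erase x0 := by
      intro x hx
      rw [Finset.mem_filter] at hx
      by_cases hxU : x ∈ U
      · rw [Finset.mem_erase]
        refine ⟨?_, hxU⟩
        rintro rfl
        have := hx.2
        rw [hw'U _ hxU] at this
        linarith
      · have := hx.2
        rw [hw'N _ hxU] at this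
        exact absurd this (lt_irrefl 0)
    have hcard : (B.filter (fun x => 0 < w' x)).card + 1 ≤ U.card := by
      have h1 := Finset.card_le_card hsub
      rw [Finset.card_erase_of_mem hx0] at h1
      have h2 : 1 ≤ U.card := Finset.card_pos.2 hne
      omega
    rw [← hU] at hk hhalf
    have h1 := ih w' (by
      intro x
      by_cases hxU : x ∈ U
      · rw [hw'U x hxU]
        linarith [hmin x hxU]
      · rw [hw'N x hxU]) (by omega) (by omega)
    have h2 := hB (U : Set V) (by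
      intro x hx
      exact ((hmem x).1 (by exact_mod_cast hx)).1) (by exact_mod_cast hne)
      (by rw [Set.ncard_coe_finset, Set.ncard_coe_finset]; exact hhalf)
    rw [Set.ncard_coe_finset] at h2
    have hsum : ∑ x ∈ B, w x = ∑ x ∈ B, w' x + w x0 * U.card := by
      have e1 : ∀ x ∈ B, w x = w' x + (if x ∈ U then w x0 else 0) := by
        intro x hx
        by_cases hxU : x ∈ U
        · rw [hw'U x hxU]
          simp [hxU]
        · rw [hw'N x hxU]
          have : w x = 0 := by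
            by_contra hne0
            exact hxU ((hmem x).2 ⟨hx, lt_of_le_of_ne (hw0 x) (Ne.symm hne0)⟩)
          simp [hxU, this]
      rw [Finset.sum_congr rfl e1, Finset.sum_add_distrib, ← Finset.sum_filter]
      have e2 : B.filter (fun x => x ∈ U) = U := by
        ext x
        rw [Finset.mem_filter]
        exact ⟨fun h => h.2, fun h => ⟨((hmem x).1 h).1, h⟩⟩
      rw [e2, Finset.sum_const, nsmul_eq_mul]
      ring
    -- edges
    have hedge : ∀ p ∈ adjPairs G B, |w p.1 - w p.2| = |w' p.1 - w' p.2| +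
        ((if p.1 ∈ U ∧ p.2 ∉ U then w x0 else 0) + (if p.2 ∈ U ∧ p.1 ∉ U then w x0 else 0)) := by
      intro p hp
      rw [mem_adjPairs] at hp
      have hz : ∀ x ∈ B, x ∉ U → w x = 0 := by
        intro x hx hxU
        by_contra hne0
        exact hxU ((hmem x).2 ⟨hx, lt_of_le_of_ne (hw0 x) (Ne.symm hne0)⟩)
      by_cases hp1 : p.1 ∈ U <;> by_cases hp2 : p.2 ∈ U
      · simp [hp1, hp2, hw'U]
      · rw [hw'U _ hp1, hw'N _ hp2, hz _ hp.1.2 hp2]
        simp only [hp1, hp2, not_true, not_false_iff, and_true, and_false, if_true, if_false,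
          add_zero, sub_zero]
        rw [abs_of_nonneg (hw0 _), abs_of_nonneg (by linarith [hmin _ hp1])]
        ring
      · rw [hw'N _ hp1, hw'U _ hp2, hz _ hp.1.1 hp1]
        simp only [hp1, hp2, not_true, not_false_iff, and_true, and_false, if_true, if_false,
          zero_sub, zero_add]
        rw [abs_neg, abs_neg, abs_of_nonneg (hw0 _), abs_of_nonneg (by linarith [hmin _ hp2])]
        ring
      · rw [hw'N _ hp1, hw'N _ hp2, hz _ hp.1.1 hp1, hz _ hp.1.2 hp2]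
        simp [hp1, hp2]
    rw [Finset.sum_congr rfl hedge, Finset.sum_add_distrib, Finset.sum_add_distrib, hsum]
    have hb1 : ∑ p ∈ adjPairs G B, (if p.1 ∈ U ∧ p.2 ∉ U then w x0 else 0) =
        w x0 * (edgeBoundary G (B : Set V) (U : Set V)).ncard := by
      rw [← Finset.sum_filter, Finset.sum_const, nsmul_eq_mul, mul_comm]
      congr 2
      rw [← Set.ncard_coe_finset]
      congr 1
      ext p
      rw [Finset.mem_coe, Finset.mem_filter, mem_adjPairs]
      constructor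
      · rintro ⟨⟨⟨h1, h2⟩, h3⟩, h4, h5⟩
        exact ⟨h4, ⟨h2, h5⟩, h3⟩
      · rintro ⟨h4, ⟨h2, h5⟩, h3⟩
        exact ⟨⟨⟨((hmem _).1 h4).1, h2⟩, h3⟩, h4, h5⟩
    have hb2 : ∑ p ∈ adjPairs G B, (if p.2 ∈ U ∧ p.1 ∉ U then w x0 else 0) =
        ∑ p ∈ adjPairs G B, (if p.1 ∈ U ∧ p.2 ∉ U then w x0 else 0) := by
      refine Finset.sum_nbij' (fun p => (p.2, p.1)) (fun p => (p.2, p.1)) ?_ ?_ ?_ ?_ ?_
      · intro p hp
        rw [mem_adjPairs] at hp ⊢
        exact ⟨⟨hp.1.2, hp.1.1⟩, hp.2.symm⟩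
      · intro p hp
        rw [mem_adjPairs] at hp ⊢
        exact ⟨⟨hp.1.2, hp.1.1⟩, hp.2.symm⟩
      · intro p _; rfl
      · intro p _; rfl
      · intro p _; rfl
    rw [hb2, hb1]
    have := mul_le_mul_of_nonneg_left h2 hx0'.2.le
    nlinarith

theorem sq_half {G : SimpleGraph V} {B : Finset V} {ε D : ℝ} (hε : 0 < ε) (hD : 0 ≤ D)
    (hB : CheegerGE G (B : Set V) ε) (hdeg : ∀ x ∈ B, ((B.filter (G.Adj x)).card : ℝ) ≤ D)
    (u w : V → ℝ) (hw0 : ∀ x, 0 ≤ w x) (hw : ∀ x y, |w x - w y| ≤ |u x - u y|)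
    (hhalf : 2 * (B.filter (fun x => 0 < w x)).card ≤ B.card) :
    ε ^ 2 * ∑ x ∈ B, (w x) ^ 2 ≤ D * ∑ p ∈ adjPairs G B, (u p.1 - u p.2) ^ 2 := by
  have hpos : B.filter (fun x => 0 < (w x) ^ 2) = B.filter (fun x => 0 < w x) := by
    apply Finset.filter_congr
    intro x _
    constructor
    · intro h
      exact lt_of_le_of_ne (hw0 x) (by rintro h0; rw [← h0] at h; simp at h)
    · intro h; positivity
  have h1 := coarea hB _ (fun x => (w x) ^ 2) (fun x => sq_nonneg _) le_rfl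
    (by rw [hpos]; exact hhalf)
  obtain ⟨S, hS⟩ : ∃ S, S = ∑ x ∈ B, (w x) ^ 2 := ⟨_, rfl⟩
  obtain ⟨E, hE⟩ : ∃ E, E = ∑ p ∈ adjPairs G B, (u p.1 - u p.2) ^ 2 := ⟨_, rfl⟩
  have hS0 : 0 ≤ S := by rw [hS]; exact Finset.sum_nonneg (fun _ _ => sq_nonneg _)
  have hE0 : 0 ≤ E := by rw [hE]; exact Finset.sum_nonneg (fun _ _ => sq_nonneg _)
  have h2 : ∑ p ∈ adjPairs G B, |(w p.1) ^ 2 - (w p.2) ^ 2| ≤
      ∑ p ∈ adjPairs G B, |u p.1 - u p.2| * (w p.1 + w p.2) := by
    apply Finset.sum_le_sum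
    intro p _
    have e1 : (w p.1) ^ 2 - (w p.2) ^ 2 = (w p.1 - w p.2) * (w p.1 + w p.2) := by ring
    have e2 : 0 ≤ w p.1 + w p.2 := add_nonneg (hw0 _) (hw0 _)
    rw [e1, abs_mul, abs_of_nonneg e2]
    exact mul_le_mul_of_nonneg_right (hw _ _) e2
  have h3 := Finset.sum_mul_sq_le_sq_mul_sq (adjPairs G B) (fun p => |u p.1 - u p.2|)
    (fun p => w p.1 + w p.2)
  have h4 : ∑ p ∈ adjPairs G B, |u p.1 - u p.2| ^ 2 = E := by
    rw [hE]
    exact Finset.sum_congr rfl (fun p _ => sq_abs _)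
  have hfst : ∀ f : V → ℝ, (∀ x, 0 ≤ f x) → ∑ p ∈ adjPairs G B, f p.1 ≤ D * ∑ x ∈ B, f x := by
    intro f hf
    have e1 : ∑ p ∈ adjPairs G B, f p.1 = ∑ x ∈ B, ((B.filter (G.Adj x)).card : ℝ) * f x := by
      rw [adjPairs, Finset.sum_filter, Finset.sum_product]
      apply Finset.sum_congr rfl
      intro x _
      rw [← Finset.sum_filter]
      change ∑ _a ∈ B.filter (G.Adj x), f x = _
      rw [Finset.sum_const, nsmul_eq_mul]
    rw [e1]
    rw [Finset.mul_sum]
    apply Finset.sum_le_sum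
    intro x hx
    exact mul_le_mul_of_nonneg_right (hdeg x hx) (hf x)
  have hsnd : ∀ f : V → ℝ, ∑ p ∈ adjPairs G B, f p.2 = ∑ p ∈ adjPairs G B, f p.1 := by
    intro f
    refine Finset.sum_nbij' (fun p => (p.2, p.1)) (fun p => (p.2, p.1)) ?_ ?_ ?_ ?_ ?_
    · intro p hp
      rw [mem_adjPairs] at hp ⊢
      exact ⟨⟨hp.1.2, hp.1.1⟩, hp.2.symm⟩
    · intro p hp
      rw [mem_adjPairs] at hp ⊢
      exact ⟨⟨hp.1.2, hp.1.1⟩, hp.2.symm⟩
    · intro p _; rfl
    · intro p _; rfl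
    · intro p _; rfl
  have h5 : ∑ p ∈ adjPairs G B, (w p.1 + w p.2) ^ 2 ≤ 4 * D * S := by
    have e1 : ∑ p ∈ adjPairs G B, (w p.1 + w p.2) ^ 2 ≤
        ∑ p ∈ adjPairs G B, (2 * (w p.1) ^ 2 + 2 * (w p.2) ^ 2) := by
      apply Finset.sum_le_sum
      intro p _
      nlinarith [sq_nonneg (w p.1 - w p.2)]
    rw [Finset.sum_add_distrib, ← Finset.mul_sum, ← Finset.mul_sum,
      hsnd (fun x => (w x) ^ 2)] at e1
    have e2 := hfst (fun x => (w x) ^ 2) (fun x => sq_nonneg _)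
    rw [← hS] at e2
    linarith
  rw [h4] at h3
  rw [← hS] at h1
  rw [← hS, ← hE]
  -- (2 ε S)^2 ≤ E * 4 D S
  have h6 : 2 * ε * S ≤ ∑ p ∈ adjPairs G B, |u p.1 - u p.2| * (w p.1 + w p.2) := h1.trans h2
  have h7 : (2 * ε * S) ^ 2 ≤ E * (4 * D * S) :=
    (pow_le_pow_left₀ (by positivity) h6 2).trans (h3.trans (mul_le_mul_of_nonneg_left h5 hE0))
  rcases hS0.eq_or_lt with h0 | hSpos
  · rw [← h0, mul_zero]
    positivity
  · have h8 : 4 * S * (ε ^ 2 * S) ≤ 4 * S * (D * E) := by nlinarith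
    exact le_of_mul_le_mul_left h8 (by positivity)

/-- Poincaré inequality for real functions. -/
theorem poincare_real {G : SimpleGraph V} {B : Finset V} {ε D : ℝ} (hε : 0 < ε) (hD : 0 ≤ D)
    (hB : CheegerGE G (B : Set V) ε) (hdeg : ∀ x ∈ B, ((B.filter (G.Adj x)).card : ℝ) ≤ D)
    (hne : B.Nonempty) (u : V → ℝ) :
    ε ^ 2 * ∑ x ∈ B, ∑ y ∈ B, (u x - u y) ^ 2 ≤
      8 * D * B.card * ∑ p ∈ adjPairs G B, (u p.1 - u p.2) ^ 2 := by
  obtain ⟨m, hm1, hm2⟩ := exists_median B hne u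
  obtain ⟨E, hE⟩ : ∃ E, E = ∑ p ∈ adjPairs G B, (u p.1 - u p.2) ^ 2 := ⟨_, rfl⟩
  have h1 : ε ^ 2 * ∑ x ∈ B, (max (u x - m) 0) ^ 2 ≤ D * E := by
    rw [hE]
    apply sq_half hε hD hB hdeg u (fun x => max (u x - m) 0) (fun x => le_max_right _ _)
    · intro x y
      have := abs_max_sub_max_le_abs (u x - m) (u y - m) 0
      rw [show u x - m - (u y - m) = u x - u y by ring] at this
      exact this
    · refine le_trans (Nat.mul_le_mul_left 2 (Finset.card_le_card ?_)) hm2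
      intro x hx
      rw [Finset.mem_filter] at hx ⊢
      refine ⟨hx.1, ?_⟩
      by_contra hcon
      have h0 : max (u x - m) 0 = 0 := max_eq_right (by linarith [not_lt.1 hcon])
      rw [h0] at hx
      exact absurd hx.2 (lt_irrefl 0)
  have h2 : ε ^ 2 * ∑ x ∈ B, (max (m - u x) 0) ^ 2 ≤ D * E := by
    rw [hE]
    apply sq_half hε hD hB hdeg u (fun x => max (m - u x) 0) (fun x => le_max_right _ _)
    · intro x y
      have := abs_max_sub_max_le_abs (m - u x) (m - u y) 0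
      rw [show m - u x - (m - u y) = -(u x - u y) by ring, abs_neg] at this
      exact this
    · refine le_trans (Nat.mul_le_mul_left 2 (Finset.card_le_card ?_)) hm1
      intro x hx
      rw [Finset.mem_filter] at hx ⊢
      refine ⟨hx.1, ?_⟩
      by_contra hcon
      have h0 : max (m - u x) 0 = 0 := max_eq_right (by linarith [not_lt.1 hcon])
      rw [h0] at hx
      exact absurd hx.2 (lt_irrefl 0)
  have h3 : ∀ x, (u x - m) ^ 2 = (max (u x - m) 0) ^ 2 + (max (m - u x) 0) ^ 2 := by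
    intro x
    rcases le_total (u x) m with h | h
    · rw [max_eq_right (by linarith), max_eq_left (by linarith : (0:ℝ) ≤ m - u x)]
      ring
    · rw [max_eq_left (by linarith : (0:ℝ) ≤ u x - m), max_eq_right (by linarith)]
      ring
  have h4 : ε ^ 2 * ∑ x ∈ B, (u x - m) ^ 2 ≤ 2 * D * E := by
    rw [Finset.sum_congr rfl (fun x _ => h3 x), Finset.sum_add_distrib, mul_add]
    linarith
  have h5 : ∑ x ∈ B, ∑ y ∈ B, (u x - u y) ^ 2 ≤ 4 * B.card * ∑ x ∈ B, (u x - m) ^ 2 := by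
    have e1 : ∑ x ∈ B, ∑ y ∈ B, (u x - u y) ^ 2 ≤
        ∑ x ∈ B, ∑ y ∈ B, (2 * (u x - m) ^ 2 + 2 * (u y - m) ^ 2) := by
      apply Finset.sum_le_sum
      intro x _
      apply Finset.sum_le_sum
      intro y _
      nlinarith [sq_nonneg (u x - m + (u y - m))]
    refine e1.trans (le_of_eq ?_)
    simp only [Finset.sum_add_distrib, Finset.sum_const, nsmul_eq_mul, ← Finset.mul_sum]
    ring
  rw [← hE]
  have hcard : (0 : ℝ) ≤ B.card := Nat.cast_nonneg _
  calc ε ^ 2 * ∑ x ∈ B, ∑ y ∈ B, (u x - u y) ^ 2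
      ≤ ε ^ 2 * (4 * B.card * ∑ x ∈ B, (u x - m) ^ 2) :=
        mul_le_mul_of_nonneg_left h5 (by positivity)
    _ = 4 * B.card * (ε ^ 2 * ∑ x ∈ B, (u x - m) ^ 2) := by ring
    _ ≤ 4 * B.card * (2 * D * E) := mul_le_mul_of_nonneg_left h4 (by positivity)
    _ = 8 * D * B.card * E := by ring

/-- Poincaré inequality for maps to an inner product space. -/
theorem poincare {G : SimpleGraph V} {B : Finset V} {ε D : ℝ} (hε : 0 < ε) (hD : 0 ≤ D)
    (hB : CheegerGE G (B : Set V) ε) (hdeg : ∀ x ∈ B, ((B.filter (G.Adj x)).card : ℝ) ≤ D)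
    (hne : B.Nonempty) {H : Type*} [NormedAddCommGroup H] [InnerProductSpace ℝ H] (f : V → H) :
    ε ^ 2 * ∑ x ∈ B, ∑ y ∈ B, ‖f x - f y‖ ^ 2 ≤
      8 * D * B.card * ∑ p ∈ adjPairs G B, ‖f p.1 - f p.2‖ ^ 2 := by
  let W : Submodule ℝ H := Submodule.span ℝ (B.image f : Set H)
  have : FiniteDimensional ℝ W := FiniteDimensional.span_finset ℝ (B.image f)
  let b := stdOrthonormalBasis ℝ W
  let F : V → W := fun x => if h : x ∈ B then
    ⟨f x, Submodule.subset_span (by
      rw [Finset.mem_coe]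
      exact Finset.mem_image_of_mem f h)⟩ else 0
  have hF : ∀ x ∈ B, ((F x : W) : H) = f x := by
    intro x hx
    simp only [F, hx, dif_pos]
  have hsq : ∀ x ∈ B, ∀ y ∈ B, ‖f x - f y‖ ^ 2 =
      ∑ i, (inner ℝ (b i) (F x) - inner ℝ (b i) (F y)) ^ 2 := by
    intro x hx y hy
    have e1 : ‖f x - f y‖ = ‖F x - F y‖ := by
      rw [← hF x hx, ← hF y hy]
      rfl
    rw [e1, ← b.sum_sq_norm_inner_right (F x - F y)]
    apply Finset.sum_congr rfl
    intro i _
    rw [inner_sub_right, Real.norm_eq_abs, sq_abs]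
  have h1 : ∑ x ∈ B, ∑ y ∈ B, ‖f x - f y‖ ^ 2 =
      ∑ i, ∑ x ∈ B, ∑ y ∈ B, (inner ℝ (b i) (F x) - inner ℝ (b i) (F y)) ^ 2 := by
    rw [Finset.sum_congr rfl (fun x hx => Finset.sum_congr rfl (fun y hy => hsq x hx y hy))]
    rw [Finset.sum_comm (s := Finset.univ) (t := B)]
    apply Finset.sum_congr rfl
    intro x _
    rw [Finset.sum_comm]
  have h2 : ∑ p ∈ adjPairs G B, ‖f p.1 - f p.2‖ ^ 2 =
      ∑ i, ∑ p ∈ adjPairs G B, (inner ℝ (b i) (F p.1) - inner ℝ (b i) (F p.2)) ^ 2 := by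
    rw [Finset.sum_comm]
    apply Finset.sum_congr rfl
    intro p hp
    rw [mem_adjPairs] at hp
    exact hsq _ hp.1.1 _ hp.1.2
  rw [h1, h2, Finset.mul_sum, Finset.mul_sum]
  apply Finset.sum_le_sum
  intro i _
  exact poincare_real hε hD hB hdeg hne (fun x => inner ℝ (b i) (F x))

end Pool.Agent.EXB
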