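import Pool.Agent.EXB.Setup
import Pool.Agent.EXB.Poinc
import Pool.Agent.EXB.HilbDefs

/-!
# Cayley graphs and actions on spaces that embed coarsely into Hilbert spaces
-/

set_option autoImplicit false

open scoped Classical Topology
open Filter

namespace Pool.Agent.EXB

/-- Most points of an expanding set have their images in one ball of fixed radius. -/
theorem typical {V : Type*} {G : SimpleGraph V} {B : Finset V} {ε D : ℝ} (hε : 0 < ε)
    (hD : 0 < D) (hB : CheegerGE G (B : Set V) ε)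
    (hdeg : ∀ x ∈ B, ((B.filter (G.Adj x)).card : ℝ) ≤ D)
    (hne : B.Nonempty) {H : Type*} [NormedAddCommGroup H] [InnerProductSpace ℝ H] (f : V → H)
    (L : ℝ) (hL : 0 < L) (hf : ∀ x ∈ B, ∀ y ∈ B, G.Adj x y → ‖f x - f y‖ ≤ L) :
    ∃ x ∈ B, 3 * B.card ≤ 4 * (B.filter (fun y => ‖f x - f y‖ ≤ 6 * D * L / ε)).card := by
  have h1 := poincare hε hD.le hB hdeg hne f
  have hadj : (adjPairs G B).card ≤ D * B.card := by
    have e1 : (adjPairs G B).card = ∑ x ∈ B, (B.filter (G.Adj x)).card := by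
      rw [adjPairs, Finset.card_filter, Finset.sum_product]
      apply Finset.sum_congr rfl
      intro x _
      rw [Finset.card_filter]
    rw [e1]
    push_cast
    calc ∑ x ∈ B, ((B.filter (G.Adj x)).card : ℝ) ≤ ∑ x ∈ B, D := Finset.sum_le_sum hdeg
      _ = D * B.card := by rw [Finset.sum_const, nsmul_eq_mul, mul_comm]
  have h2 : ∑ p ∈ adjPairs G B, ‖f p.1 - f p.2‖ ^ 2 ≤ D * B.card * L ^ 2 := by
    have e1 : ∑ p ∈ adjPairs G B, ‖f p.1 - f p.2‖ ^ 2 ≤ ∑ p ∈ adjPairs G B, L ^ 2 := by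
      apply Finset.sum_le_sum
      intro p hp
      rw [mem_adjPairs] at hp
      exact pow_le_pow_left₀ (norm_nonneg _) (hf _ hp.1.1 _ hp.1.2 hp.2) 2
    rw [Finset.sum_const, nsmul_eq_mul] at e1
    exact e1.trans (mul_le_mul_of_nonneg_right hadj (sq_nonneg L))
  have hBpos : (0 : ℝ) < B.card := by exact_mod_cast hne.card_pos
  by_contra hcon
  push Not at hcon
  obtain ⟨M, hM⟩ : ∃ M, M = 6 * D * L / ε := ⟨_, rfl⟩
  rw [← hM] at hcon
  have hM0 : 0 < M := by rw [hM]; positivity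
  have h3 : ∀ x ∈ B, (B.card : ℝ) * M ^ 2 / 4 ≤ ∑ y ∈ B, ‖f x - f y‖ ^ 2 := by
    intro x hx
    have e0 := hcon x hx
    have e1 : (B.filter (fun y => ‖f x - f y‖ ≤ M)).card +
        (B.filter (fun y => ¬ ‖f x - f y‖ ≤ M)).card = B.card :=
      Finset.card_filter_add_card_filter_not _
    have e2 : B.card ≤ 4 * (B.filter (fun y => ¬ ‖f x - f y‖ ≤ M)).card := by omega
    have e3 : ((B.filter (fun y => ¬ ‖f x - f y‖ ≤ M)).card : ℝ) * M ^ 2 ≤
        ∑ y ∈ B, ‖f x - f y‖ ^ 2 := by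
      calc ((B.filter (fun y => ¬ ‖f x - f y‖ ≤ M)).card : ℝ) * M ^ 2
          = ∑ y ∈ B.filter (fun y => ¬ ‖f x - f y‖ ≤ M), M ^ 2 := by
            rw [Finset.sum_const, nsmul_eq_mul]
        _ ≤ ∑ y ∈ B.filter (fun y => ¬ ‖f x - f y‖ ≤ M), ‖f x - f y‖ ^ 2 := by
            apply Finset.sum_le_sum
            intro y hy
            rw [Finset.mem_filter, not_le] at hy
            exact pow_le_pow_left₀ hM0.le hy.2.le 2
        _ ≤ ∑ y ∈ B, ‖f x - f y‖ ^ 2 :=
            Finset.sum_le_sum_of_subset_of_nonneg (Finset.filter_subset _ _)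
              (fun _ _ _ => sq_nonneg _)
    have e4 : (B.card : ℝ) ≤ 4 * (B.filter (fun y => ¬ ‖f x - f y‖ ≤ M)).card := by
      exact_mod_cast e2
    nlinarith [sq_nonneg M]
  have h4 : (B.card : ℝ) * ((B.card : ℝ) * M ^ 2 / 4) ≤
      ∑ x ∈ B, ∑ y ∈ B, ‖f x - f y‖ ^ 2 := by
    have := Finset.sum_le_sum h3
    rw [Finset.sum_const, nsmul_eq_mul] at this
    exact this
  have h5 : ε ^ 2 * ((B.card : ℝ) * ((B.card : ℝ) * M ^ 2 / 4)) ≤
      8 * D * B.card * (D * B.card * L ^ 2) := by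
    calc ε ^ 2 * ((B.card : ℝ) * ((B.card : ℝ) * M ^ 2 / 4))
        ≤ ε ^ 2 * ∑ x ∈ B, ∑ y ∈ B, ‖f x - f y‖ ^ 2 :=
          mul_le_mul_of_nonneg_left h4 (by positivity)
      _ ≤ _ := h1
      _ ≤ _ := mul_le_mul_of_nonneg_left h2 (by positivity)
  have h6 : ε ^ 2 * ((B.card : ℝ) * ((B.card : ℝ) * M ^ 2 / 4)) =
      9 * (D ^ 2 * (B.card : ℝ) ^ 2 * L ^ 2) := by
    rw [hM]
    field_simp
    ring
  have h7 : 0 < D ^ 2 * (B.card : ℝ) ^ 2 * L ^ 2 := by positivity
  nlinarith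

section Cayley

variable {Γ : Type*} [Group Γ]

theorem cayley_aut (S : Set Γ) (g u v : Γ) (h : (cayley S).Adj u v) :
    (cayley S).Adj (g • u) (g • v) := by
  obtain ⟨h1, h2⟩ := h
  refine ⟨fun he => h1 (mul_left_cancel he), ?_⟩
  simp only [smul_eq_mul, mul_inv_rev]
  have e : ∀ u v : Γ, u⁻¹ * g⁻¹ * (g * v) = u⁻¹ * v := by
    intro u v
    group
  rw [e, e]
  exact h2

theorem cayley_finite {S : Set Γ} (hS : S.Finite) (v : Γ) :
    ((cayley S).neighborSet v).Finite := by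
  apply ((hS.image (fun s => v * s)).union (hS.image (fun s => v * s⁻¹))).subset
  intro w hw
  obtain ⟨_, h2⟩ := hw
  rcases h2 with h2 | h2
  · left
    exact ⟨_, h2, by simp⟩
  · right
    exact ⟨_, h2, by simp⟩

theorem cayley_connected {S : Set Γ} (hgen : Subgroup.closure S = ⊤) : (cayley S).Connected := by
  have hreach : ∀ x : Γ, (cayley S).Reachable 1 x := by
    intro x
    have hx : x ∈ Subgroup.closure S := by rw [hgen]; trivial
    have step : ∀ u s : Γ, s ∈ S → (cayley S).Reachable u (u * s) := by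
      intro u s hs
      by_cases h1 : u = u * s
      · rw [← h1]
      · apply SimpleGraph.Adj.reachable
        exact ⟨h1, Or.inl (by simpa using hs)⟩
    have step' : ∀ u s : Γ, s ∈ S → (cayley S).Reachable u (u * s⁻¹) := by
      intro u s hs
      have := (step (u * s⁻¹) s hs).symm
      simpa using this
    induction hx using Subgroup.closure_induction_right with
    | one => exact SimpleGraph.Reachable.refl _
    | mul_right x hx y hy ih => exact ih.trans (step _ _ hy)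
    | mul_inv_cancel x hx y hy ih => exact ih.trans (step' _ _ hy)
  have : Nonempty Γ := ⟨1⟩
  exact ⟨fun u v => (hreach u).symm.trans (hreach v)⟩

end Cayley

end Pool.Agent.EXB
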