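import Pool.Agent.EXB.Hilb

/-!
# Cayley graphs and actions on spaces that embed coarsely into Hilbert spaces: main theorem
-/

set_option autoImplicit false

open scoped Classical Topology
open Filter

namespace Pool.Agent.EXB

theorem limit_bound_sub (b : ℕ → ℝ) (lam : ℝ)
    (hlim : Tendsto (fun n : ℕ => (b n) ^ (1 / (n : ℝ))) atTop (𝓝 lam)) (N : ℕ) (hN : 0 < N)
    (q : ℝ) (hq : 0 ≤ q) (k : ℕ → ℕ) (hk : Tendsto k atTop atTop)
    (h : ∀ j : ℕ, q ^ k j ≤ b (k j * N)) : q ≤ lam ^ N := by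
  have h1 : Tendsto (fun j : ℕ => k j * N) atTop atTop :=
    (tendsto_id.atTop_mul_const' hN : Tendsto (fun k : ℕ => k * N) atTop atTop).comp hk
  have h2 := hlim.comp h1
  have h3 : q ^ (1 / (N : ℝ)) ≤ lam := by
    refine ge_of_tendsto h2 ?_
    filter_upwards [hk.eventually_ge_atTop 1] with j hj
    have hk0 : (k j : ℝ) ≠ 0 := by
      have : (1 : ℝ) ≤ k j := by exact_mod_cast hj
      linarith
    have hN0 : (N : ℝ) ≠ 0 := by exact_mod_cast hN.ne'
    have e1 : q ^ (1 / (N : ℝ)) = (q ^ k j) ^ (1 / ((k j * N : ℕ) : ℝ)) := by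
      rw [← Real.rpow_natCast q (k j), ← Real.rpow_mul hq]
      congr 1
      push_cast
      field_simp
    rw [Function.comp_apply, e1]
    exact Real.rpow_le_rpow (pow_nonneg hq _) (h j) (by positivity)
  have h4 : 0 ≤ q ^ (1 / (N : ℝ)) := Real.rpow_nonneg hq _
  have h5 : (q ^ (1 / (N : ℝ))) ^ N = q := by
    rw [← Real.rpow_natCast, ← Real.rpow_mul hq]
    have hN0 : (N : ℝ) ≠ 0 := by exact_mod_cast hN.ne'
    rw [one_div, inv_mul_cancel₀ hN0, Real.rpow_one]
  calc q = (q ^ (1 / (N : ℝ))) ^ N := h5.symm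
    _ ≤ lam ^ N := pow_le_pow_left₀ h4 h3 N

theorem hilb_main {Γ X H : Type*} [Group Γ] (hinf : Infinite Γ) [PseudoMetricSpace X]
    [MulAction Γ X] [IsIsometricSMul Γ X] [NormedAddCommGroup H] [InnerProductSpace ℝ H]
    (S : Set Γ) (hS : S.Finite) (hgen : Subgroup.closure S = ⊤) (f : X → H)
    (hf : CoarseEmbedding f) (x : X)
    (hfix : ∀ R : ℝ, ∃ g : Γ, {h : Γ | dist x (h • x) ≤ R ∧ dist (g • x) (h • g • x) ≤ R}.Finite)
    (ε : ℝ) (hε : 0 < ε) : ¬ ∀ n : ℕ, CheegerGE (cayley S) (gball (cayley S) 1 n) ε := by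
  intro hall
  obtain ⟨G, hGdef⟩ : ∃ G, G = cayley S := ⟨_, rfl⟩
  rw [← hGdef] at hall
  have hG : G.Connected := by rw [hGdef]; exact cayley_connected hgen
  have hlf : ∀ v, (G.neighborSet v).Finite := by
    intro v; rw [hGdef]; exact cayley_finite hS v
  have haut : ∀ (g : Γ) (u v : Γ), G.Adj u v → G.Adj (g • u) (g • v) := by
    intro g u v h
    rw [hGdef] at h ⊢
    exact cayley_aut S g u v h
  have htr : ∀ v : Γ, ∃ g : Γ, g • (1 : Γ) = v := fun v => ⟨v, by simp⟩
  have hdist : ∀ g u v : Γ, G.dist (g * u) (g * v) = G.dist u v := by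
    intro g u v
    exact act_dist hG haut g u v
  have hdinv : ∀ y : Γ, G.dist 1 y⁻¹ = G.dist 1 y := by
    intro y
    have := hdist y 1 y⁻¹
    rw [mul_one, mul_inv_cancel] at this
    rw [← this, SimpleGraph.dist_comm]
  have hdmul : ∀ y z : Γ, G.dist 1 (y * z) ≤ G.dist 1 y + G.dist 1 z := by
    intro y z
    have h1 := hG.dist_triangle (u := 1) (v := y) (w := y * z)
    have h2 := hdist y 1 z
    rw [mul_one] at h2
    omega
  obtain ⟨lam, hlam⟩ := exists_lam hG hlf haut 1 htr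
  have hfin := ball_finite hG hlf
  -- degrees
  obtain ⟨D, hD⟩ : ∃ D : ℝ, D = (G.neighborSet 1).ncard + 1 := ⟨_, rfl⟩
  have hD1 : 1 ≤ D := by
    rw [hD]
    have : (0 : ℝ) ≤ (G.neighborSet 1).ncard := Nat.cast_nonneg _
    linarith
  have hD0 : 0 < D := by linarith
  have hdeg : ∀ (W : Finset Γ) (y : Γ), ((W.filter (G.Adj y)).card : ℝ) ≤ D := by
    intro W y
    have h1 : ((W.filter (G.Adj y) : Finset Γ) : Set Γ) ⊆
        (fun u => y • u) '' G.neighborSet 1 := by
      intro z hz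
      rw [Finset.coe_filter] at hz
      have h2 := haut y⁻¹ _ _ hz.2
      refine ⟨y⁻¹ • z, ?_, by simp⟩
      have e : y⁻¹ • y = (1 : Γ) := by simp
      rw [e] at h2
      exact h2
    have h2 := Set.ncard_le_ncard h1 ((hlf 1).image _)
    rw [Set.ncard_coe_finset, Set.ncard_image_of_injective _ (MulAction.injective y)] at h2
    have h3 : ((W.filter (G.Adj y)).card : ℝ) ≤ (G.neighborSet 1).ncard := by exact_mod_cast h2
    rw [hD]
    linarith
  -- Lipschitz constants
  obtain ⟨M0, hM0⟩ : ∃ M0 : ℝ, ∀ w ∈ G.neighborSet 1, dist x (w • x) ≤ M0 := by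
    refine ⟨∑ w ∈ (hlf 1).toFinset, dist x (w • x), fun w hw => ?_⟩
    exact Finset.single_le_sum (f := fun w => dist x (w • x)) (fun _ _ => dist_nonneg)
      ((hlf 1).mem_toFinset.2 hw)
  obtain ⟨hf1, hf2⟩ := hf
  obtain ⟨M1, hM1⟩ := hf1 M0
  obtain ⟨L, hL⟩ : ∃ L, L = max M1 1 := ⟨_, rfl⟩
  have hL0 : 0 < L := by rw [hL]; exact lt_of_lt_of_le one_pos (le_max_right _ _)
  have hLip : ∀ y z : Γ, G.Adj y z → ‖f (y • x) - f (z • x)‖ ≤ L := by
    intro y z hyz
    have h1 : y⁻¹ * z ∈ G.neighborSet 1 := by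
      have := haut y⁻¹ _ _ hyz
      simpa using this
    have h2 : dist (y • x) (z • x) ≤ M0 := by
      have e : dist (y • x) (z • x) = dist x ((y⁻¹ * z) • x) := by
        rw [← dist_smul y x, smul_smul, mul_inv_cancel_left]
      rw [e]
      exact hM0 _ h1
    rw [hL]
    exact (hM1 _ _ h2).trans (le_max_left _ _)
  obtain ⟨R, hR⟩ := hf2 (6 * D * L / ε)
  obtain ⟨g, hg⟩ := hfix (2 * R)
  obtain ⟨K, hK⟩ : ∃ K : ℕ, K = 1 + {h : Γ | dist x (h • x) ≤ 2 * R ∧
    dist (g • x) (h • g • x) ≤ 2 * R}.ncard := ⟨_, rfl⟩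
  obtain ⟨b, hb⟩ : ∃ b : ℕ → ℕ, b = fun n => (gball G 1 n).ncard := ⟨_, rfl⟩
  have hbn : ∀ n, b n = (gball G 1 n).ncard := fun n => by rw [hb]
  have hb1 : ∀ n, 1 ≤ b n := by
    intro n
    rw [hbn]
    exact ball_one_le hG hlf 1 n
  -- the product inequality
  have hprod : ∀ n, (b n) ^ 2 ≤ 4 * K * b (2 * n + G.dist 1 g) := by
    intro n
    let B : Finset Γ := (hfin 1 n).toFinset
    have hB : ((B : Finset Γ) : Set Γ) = gball G 1 n := by
      simp only [B, Set.Finite.coe_toFinset]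
    have hmem : ∀ y, y ∈ B ↔ G.dist 1 y ≤ n := by
      intro y
      rw [← Finset.mem_coe, hB]
      exact Iff.rfl
    have hcardB : B.card = b n := by
      rw [hbn, ← hB, Set.ncard_coe_finset]
    have hne : B.Nonempty := by
      rw [← Finset.card_pos, hcardB]
      exact hb1 n
    obtain ⟨x0, hx0, h34⟩ := typical hε hD0 (by rw [hB]; exact hall n)
      (fun y _ => hdeg B y) hne (fun y => f (y • x)) L hL0 (fun y _ z _ h => hLip y z h)
    obtain ⟨A1, hA1⟩ : ∃ A1, A1 = B.filter (fun y => dist (x0 • x) (y • x) ≤ R) := ⟨_, rfl⟩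
    have hA1card : 3 * B.card ≤ 4 * A1.card := by
      refine h34.trans (Nat.mul_le_mul_left 4 (Finset.card_le_card ?_))
      intro y hy
      rw [Finset.mem_filter] at hy
      rw [hA1, Finset.mem_filter]
      exact ⟨hy.1, hR _ _ hy.2⟩
    have hA1B : A1 ⊆ B := by rw [hA1]; exact Finset.filter_subset _ _
    obtain ⟨A2, hA2⟩ : ∃ A2, A2 = A1.image (fun y => y⁻¹) := ⟨_, rfl⟩
    have hA2card : A2.card = A1.card := by
      rw [hA2, Finset.card_image_of_injective _ inv_injective]
    have hA2B : A2 ⊆ B := by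
      intro y hy
      rw [hA2, Finset.mem_image] at hy
      obtain ⟨z, hz, rfl⟩ := hy
      rw [hmem, hdinv, ← hmem]
      exact hA1B hz
    obtain ⟨A, hA⟩ : ∃ A, A = A1 ∩ A2 := ⟨_, rfl⟩
    have hAcard : B.card ≤ 2 * A.card := by
      have e1 := Finset.card_union_add_card_inter A1 A2
      have e2 := Finset.card_le_card (Finset.union_subset hA1B hA2B)
      rw [← hA] at e1
      omega
    have hAB : ∀ y ∈ A, G.dist 1 y ≤ n := by
      intro y hy
      rw [hA, Finset.mem_inter] at hy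
      exact (hmem y).1 (hA1B hy.1)
    have hAd : ∀ y ∈ A, ∀ z ∈ A, dist (y • x) (z • x) ≤ 2 * R := by
      intro y hy z hz
      rw [hA, Finset.mem_inter, hA1, Finset.mem_filter] at hy hz
      have := dist_triangle_left (y • x) (z • x) (x0 • x)
      linarith [hy.1.2, hz.1.2]
    have hAd' : ∀ y ∈ A, ∀ z ∈ A, dist (y⁻¹ • x) (z⁻¹ • x) ≤ 2 * R := by
      intro y hy z hz
      rw [hA, Finset.mem_inter, hA2, Finset.mem_image] at hy hz
      obtain ⟨_, y', hy', rfl⟩ := hy
      obtain ⟨_, z', hz', rfl⟩ := hz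
      rw [hA1, Finset.mem_filter] at hy' hz'
      rw [inv_inv, inv_inv]
      have := dist_triangle_left (y' • x) (z' • x) (x0 • x)
      linarith [hy'.2, hz'.2]
    have key : (A ×ˢ A).card ≤ K * ((A ×ˢ A).image (fun p => p.1 * g * p.2)).card := by
      apply Finset.card_le_mul_card_image
      intro z _
      rcases ((A ×ˢ A).filter (fun p => p.1 * g * p.2 = z)).eq_empty_or_nonempty with he | hne'
      · rw [he]
        simp
      obtain ⟨p, hp⟩ := hne'
      rw [Finset.mem_filter, Finset.mem_product] at hp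
      have hinj : Set.InjOn (fun q : Γ × Γ => p.1⁻¹ * q.1)
          (((A ×ˢ A).filter (fun p => p.1 * g * p.2 = z) : Finset (Γ × Γ)) : Set (Γ × Γ)) := by
        intro q hq r hr hqr
        rw [Finset.mem_coe, Finset.mem_filter] at hq hr
        have e1 : q.1 = r.1 := mul_left_cancel hqr
        have e2 : q.1 * g * q.2 = r.1 * g * r.2 := hq.2.trans hr.2.symm
        rw [e1] at e2
        exact Prod.ext e1 (mul_left_cancel e2)
      have hsub : (((A ×ˢ A).filter (fun p => p.1 * g * p.2 = z)).image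
          (fun q : Γ × Γ => p.1⁻¹ * q.1) : Set Γ) ⊆
          {h : Γ | dist x (h • x) ≤ 2 * R ∧ dist (g • x) (h • g • x) ≤ 2 * R} := by
        intro w hw
        rw [Finset.mem_coe, Finset.mem_image] at hw
        obtain ⟨q, hq, rfl⟩ := hw
        rw [Finset.mem_filter, Finset.mem_product] at hq
        constructor
        · have e : dist x ((p.1⁻¹ * q.1) • x) = dist (p.1 • x) (q.1 • x) := by
            rw [← dist_smul p.1 x, smul_smul, mul_inv_cancel_left]
          rw [e]
          exact hAd _ hp.1.1 _ hq.1.1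
        · have e0 : p.1⁻¹ * q.1 * g = g * (p.2 * q.2⁻¹) := by
            have e1 : p.1 * g * p.2 = q.1 * g * q.2 := hp.2.trans hq.2.symm
            have e2 : q.1 * g = p.1 * g * p.2 * q.2⁻¹ := by
              rw [e1, mul_inv_cancel_right]
            rw [mul_assoc, e2]
            group
          have e : dist (g • x) ((p.1⁻¹ * q.1) • g • x) = dist (p.2⁻¹ • x) (q.2⁻¹ • x) := by
            rw [smul_smul, e0, ← smul_smul, dist_smul, ← smul_smul,
              ← dist_smul p.2 (p.2⁻¹ • x) (q.2⁻¹ • x), smul_inv_smul]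
          rw [e]
          exact hAd' _ hp.1.2 _ hq.1.2
      have h1 := Set.ncard_le_ncard hsub hg
      rw [Set.ncard_coe_finset, Finset.card_image_of_injOn hinj] at h1
      rw [hK]
      omega
    have himg : ((A ×ˢ A).image (fun p => p.1 * g * p.2)).card ≤ b (2 * n + G.dist 1 g) := by
      rw [hbn, ← Set.ncard_coe_finset]
      apply Set.ncard_le_ncard _ (hfin _ _)
      intro w hw
      rw [Finset.mem_coe, Finset.mem_image] at hw
      obtain ⟨p, hp, rfl⟩ := hw
      rw [Finset.mem_product] at hp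
      show G.dist 1 (p.1 * g * p.2) ≤ 2 * n + G.dist 1 g
      have e1 := hdmul (p.1 * g) p.2
      have e2 := hdmul p.1 g
      have e3 := hAB _ hp.1
      have e4 := hAB _ hp.2
      omega
    rw [Finset.card_product] at key
    rw [hcardB] at hAcard
    calc (b n) ^ 2 ≤ (2 * A.card) ^ 2 := Nat.pow_le_pow_left hAcard 2
      _ = 4 * (A.card * A.card) := by ring
      _ ≤ 4 * (K * ((A ×ˢ A).image (fun p => p.1 * g * p.2)).card) := Nat.mul_le_mul_left 4 key
      _ ≤ 4 * (K * b (2 * n + G.dist 1 g)) :=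
        Nat.mul_le_mul_left 4 (Nat.mul_le_mul_left K himg)
      _ = 4 * K * b (2 * n + G.dist 1 g) := by ring
  -- doubling
  obtain ⟨C, hC⟩ : ∃ C : ℝ, C = 4 * K * b (G.dist 1 g) := ⟨_, rfl⟩
  have hC1 : 1 ≤ C := by
    have e1 : (1 : ℝ) ≤ K := by
      have : 1 ≤ K := by rw [hK]; exact Nat.le_add_right _ _
      exact_mod_cast this
    have e2 : (1 : ℝ) ≤ b (G.dist 1 g) := by exact_mod_cast hb1 _
    rw [hC]
    nlinarith
  have hC0 : 0 < C := by linarith
  have hdouble : ∀ n, ((b n : ℝ)) ^ 2 ≤ C * b (2 * n) := by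
    intro n
    have e1 := ball_submul hG hlf haut 1 htr (2 * n) (G.dist 1 g)
    rw [← hbn, ← hbn, ← hbn] at e1
    have e2 : (b n) ^ 2 ≤ 4 * K * (b (2 * n) * b (G.dist 1 g)) :=
      (hprod n).trans (Nat.mul_le_mul_left _ e1)
    have e3 : ((b n : ℝ)) ^ 2 ≤ 4 * K * (b (2 * n) * b (G.dist 1 g)) := by exact_mod_cast e2
    rw [hC]
    linarith
  have hiter : ∀ n j, ((b n : ℝ) / C) ^ (2 ^ j) ≤ b (2 ^ j * n) / C := by
    intro n j
    induction j with
    | zero => simp
    | succ j ih =>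
      have e1 : (0 : ℝ) ≤ ((b n : ℝ) / C) ^ (2 ^ j) := by positivity
      have e2 := pow_le_pow_left₀ e1 ih 2
      rw [← pow_mul, ← pow_succ] at e2
      have e3 := hdouble (2 ^ j * n)
      rw [show 2 * (2 ^ j * n) = 2 ^ (j + 1) * n by ring] at e3
      refine e2.trans ?_
      rw [div_pow, div_le_div_iff₀ (by positivity) hC0]
      nlinarith
  have hbound : ∀ n, (b n : ℝ) ≤ C * lam ^ n := by
    intro n
    rcases Nat.eq_zero_or_pos n with rfl | hn
    · rw [pow_zero, mul_one]
      have h0 : b 0 ≤ 1 := by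
        rw [hbn]
        have : gball G 1 0 ⊆ {1} := by
          intro y hy
          have hy' : G.dist 1 y ≤ 0 := hy
          exact ((hG.dist_eq_zero_iff).1 (Nat.le_zero.1 hy')).symm
        exact (Set.ncard_le_ncard this (Set.finite_singleton _)).trans
          (Set.ncard_singleton _).le
      have : (b 0 : ℝ) ≤ 1 := by exact_mod_cast h0
      linarith
    · have h1 : (b n : ℝ) / C ≤ lam ^ n := by
        apply limit_bound_sub (fun n => ((gball G 1 n).ncard : ℝ)) lam hlam n hn _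
          (by positivity) (fun j => 2 ^ j)
          (tendsto_pow_atTop_atTop_of_one_lt (by norm_num : 1 < 2))
        intro j
        refine (hiter n j).trans ?_
        rw [← hbn]
        exact div_le_self (Nat.cast_nonneg _) hC1
      rw [div_le_iff₀ hC0] at h1
      linarith
  have hfinal := finite_of_bound hinf hG hlf haut 1 htr lam hlam ε hε C
    (fun n _ => by rw [← hbn]; exact hbound n)
  have huniv : {n : ℕ | CheegerGE G (gball G 1 n) ε} = Set.univ :=
    Set.eq_univ_of_forall (fun n => hall n)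
  rw [huniv] at hfinal
  exact Set.infinite_univ hfinal

end Pool.Agent.EXB
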