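import Mathlib

/-!
# Hyperbolic spaces, loxodromic elements and weak proper discontinuity
-/

set_option autoImplicit false

namespace Pool.Agent.EXB

/-- The Gromov product of `x` and `y` seen from `w`. -/
noncomputable def gp {X : Type*} [PseudoMetricSpace X] (x y w : X) : ℝ :=
  (dist x w + dist y w - dist x y) / 2

/-- `X` is `δ`-hyperbolic (four point condition). -/
def IsHyperbolic (X : Type*) [PseudoMetricSpace X] (δ : ℝ) : Prop :=
  ∀ x y z w : X, min (gp x z w) (gp z y w) - δ ≤ gp x y w

/-- `a` is loxodromic: its powers move `x` at linear speed, so that `n ↦ a ^ n • x` is a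
quasi-isometric embedding of the integers. -/
def Loxodromic {Γ X : Type*} [Group Γ] [PseudoMetricSpace X] [MulAction Γ X] (a : Γ) (x : X) :
    Prop :=
  ∃ τ : ℝ, 0 < τ ∧ ∀ n : ℕ, τ * n ≤ dist x (a ^ n • x)

/-- The loxodromic elements `a` and `b` are independent (have no common fixed point at
infinity): the Gromov products of points of the orbits of `x` under their powers are bounded. -/
def Independent {Γ X : Type*} [Group Γ] [PseudoMetricSpace X] [MulAction Γ X] (a b : Γ) (x : X) :
    Prop :=
  ∃ c : ℝ, ∀ m n : ℤ, gp (a ^ m • x) (b ^ n • x) x ≤ c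

/-- Weak proper discontinuity of `a` (Bestvina, Fujiwara), counted on the orbit of the vertex
`v`: for every `R` and some `N` only finitely many vertices `h • v` come from elements `h` which
move `x` and `a ^ N • x` by at most `R`. -/
def WPD {Γ V X : Type*} [Group Γ] [MulAction Γ V] [PseudoMetricSpace X] [MulAction Γ X] (a : Γ)
    (v : V) (x : X) : Prop :=
  ∀ R : ℝ, ∃ N : ℕ, {w : V | ∃ h : Γ, h • v = w ∧ dist x (h • x) ≤ R ∧
    dist (a ^ N • x) (h • a ^ N • x) ≤ R}.Finite

end Pool.Agent.EXB
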