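import Pool.Agent.EXB.Count

/-!
# Transitive graphs and their groups
-/

set_option autoImplicit false

open scoped Classical Topology
open Filter

namespace Pool.Agent.EXB

/-- The automorphism of the graph given by a group element. -/
def actIso {Γ V : Type*} [Group Γ] [MulAction Γ V] {G : SimpleGraph V}
    (haut : ∀ (g : Γ) (u v : V), G.Adj u v → G.Adj (g • u) (g • v)) (g : Γ) : G ≃g G where
  toEquiv := MulAction.toPerm g
  map_rel_iff' := by
    intro u v
    constructor
    · intro h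
      have := haut g⁻¹ _ _ h
      simpa using this
    · exact haut g u v

theorem act_dist {Γ V : Type*} [Group Γ] [MulAction Γ V] {G : SimpleGraph V} (hG : G.Connected)
    (haut : ∀ (g : Γ) (u v : V), G.Adj u v → G.Adj (g • u) (g • v)) (g : Γ) (u v : V) :
    G.dist (g • u) (g • v) = G.dist u v :=
  dist_iso hG (actIso haut g) u v

theorem ball_card {Γ V : Type*} [Group Γ] [MulAction Γ V] {G : SimpleGraph V} (hG : G.Connected)
    (haut : ∀ (g : Γ) (u v : V), G.Adj u v → G.Adj (g • u) (g • v)) (g : Γ) (v : V) (r : ℕ) :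
    (gball G (g • v) r).ncard = (gball G v r).ncard := by
  have h1 : gball G (g • v) r = actIso haut g '' gball G v r := gball_iso hG (actIso haut g) v r
  rw [h1, Set.ncard_image_of_injective _ (actIso haut g).injective]

theorem ball_submul {Γ V : Type*} [Group Γ] [MulAction Γ V] {G : SimpleGraph V}
    (hG : G.Connected) (hlf : ∀ v, (G.neighborSet v).Finite)
    (haut : ∀ (g : Γ) (u v : V), G.Adj u v → G.Adj (g • u) (g • v))
    (v₀ : V) (htr : ∀ v : V, ∃ g : Γ, g • v₀ = v) (m n : ℕ) :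
    (gball G v₀ (m + n)).ncard ≤ (gball G v₀ m).ncard * (gball G v₀ n).ncard := by
  have hfin := ball_finite hG hlf
  have h1 : (hfin v₀ (m + n)).toFinset ⊆ (hfin v₀ m).toFinset.biUnion
      (fun v => (hfin v n).toFinset) := by
    intro x hx
    rw [Set.Finite.mem_toFinset] at hx
    have hx' : G.dist v₀ x ≤ m + n := hx
    rw [Finset.mem_biUnion]
    by_cases h : G.dist v₀ x ≤ m
    · refine ⟨x, ?_, ?_⟩
      · rw [Set.Finite.mem_toFinset]
        exact h
      · rw [Set.Finite.mem_toFinset]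
        show G.dist x x ≤ n
        simp
    · obtain ⟨p, hp1, _⟩ := exists_geodesic hG v₀ x
      have e1 := hp1 (G.dist v₀ x - m) (by omega)
      refine ⟨p (G.dist v₀ x - m), ?_, ?_⟩
      · rw [Set.Finite.mem_toFinset]
        show G.dist v₀ (p (G.dist v₀ x - m)) ≤ m
        omega
      · rw [Set.Finite.mem_toFinset]
        show G.dist (p (G.dist v₀ x - m)) x ≤ n
        omega
  have h2 : ((hfin v₀ m).toFinset.biUnion (fun v => (hfin v n).toFinset)).card ≤
      (hfin v₀ m).toFinset.card * (gball G v₀ n).ncard := by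
    apply Finset.card_biUnion_le_card_mul
    intro v _
    obtain ⟨g, hg⟩ := htr v
    rw [← Set.ncard_eq_toFinset_card _ (hfin v n), ← hg, ball_card hG haut]
  rw [Set.ncard_eq_toFinset_card _ (hfin v₀ (m + n)), Set.ncard_eq_toFinset_card _ (hfin v₀ m)]
  exact (Finset.card_le_card h1).trans h2

theorem ball_one_le {V : Type*} {G : SimpleGraph V}
    (hG : G.Connected) (hlf : ∀ v, (G.neighborSet v).Finite) (v₀ : V) (n : ℕ) :
    1 ≤ (gball G v₀ n).ncard := by
  rw [Nat.one_le_iff_ne_zero, Ne, Set.ncard_eq_zero (ball_finite hG hlf v₀ n)]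
  intro h
  have : v₀ ∈ gball G v₀ n := by
    show G.dist v₀ v₀ ≤ n
    simp
  rw [h] at this
  exact this

theorem exists_lam {Γ V : Type*} [Group Γ] [MulAction Γ V] {G : SimpleGraph V}
    (hG : G.Connected) (hlf : ∀ v, (G.neighborSet v).Finite)
    (haut : ∀ (g : Γ) (u v : V), G.Adj u v → G.Adj (g • u) (g • v))
    (v₀ : V) (htr : ∀ v : V, ∃ g : Γ, g • v₀ = v) :
    ∃ lam : ℝ, Tendsto (fun n : ℕ => ((gball G v₀ n).ncard : ℝ) ^ (1 / (n : ℝ))) atTop (𝓝 lam) :=
  exists_growth_rate (fun n => ((gball G v₀ n).ncard : ℝ))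
    (fun n => by exact_mod_cast ball_one_le hG hlf v₀ n)
    (fun m n => by exact_mod_cast ball_submul hG hlf haut v₀ htr m n)

/-- If the sizes of all expanding balls are at most `C * lam ^ n`, there are finitely many. -/
theorem finite_of_bound {Γ V : Type*} [Group Γ] [MulAction Γ V] {G : SimpleGraph V}
    (hinf : Infinite V) (hG : G.Connected) (hlf : ∀ v, (G.neighborSet v).Finite)
    (haut : ∀ (g : Γ) (u v : V), G.Adj u v → G.Adj (g • u) (g • v))
    (v₀ : V) (htr : ∀ v : V, ∃ g : Γ, g • v₀ = v) (lam : ℝ)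
    (hlam : Tendsto (fun n : ℕ => ((gball G v₀ n).ncard : ℝ) ^ (1 / (n : ℝ))) atTop (𝓝 lam))
    (ε : ℝ) (hε : 0 < ε) (C : ℝ)
    (hC : ∀ n : ℕ, CheegerGE G (gball G v₀ n) ε → ((gball G v₀ n).ncard : ℝ) ≤ C * lam ^ n) :
    {n : ℕ | CheegerGE G (gball G v₀ n) ε}.Finite := by
  by_contra hcon
  have hcon' : {n : ℕ | CheegerGE G (gball G v₀ n) ε}.Infinite := hcon
  obtain ⟨D, hD⟩ : ∃ D : ℕ, D = (G.neighborSet v₀).ncard := ⟨_, rfl⟩
  have hdeg : ∀ v, (G.neighborSet v).Finite ∧ (G.neighborSet v).ncard ≤ D := by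
    intro v
    refine ⟨hlf v, ?_⟩
    obtain ⟨g, hg⟩ := htr v
    have h1 : G.neighborSet v = (fun u => g • u) '' G.neighborSet v₀ := by
      ext u
      constructor
      · intro hu
        refine ⟨g⁻¹ • u, ?_, by simp⟩
        have h2 : G.Adj v u := hu
        have h3 := haut g⁻¹ _ _ h2
        rw [← hg, inv_smul_smul] at h3
        exact h3
      · rintro ⟨w, hw, rfl⟩
        have h2 := haut g _ _ (hw : G.Adj v₀ w)
        rw [hg] at h2
        exact h2
    rw [h1, Set.ncard_image_of_injective _ (MulAction.injective g), hD]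
  have htrans : VertexTransitive G := by
    intro u v
    obtain ⟨g, hg⟩ := htr u
    obtain ⟨g', hg'⟩ := htr v
    refine ⟨actIso haut (g' * g⁻¹), ?_⟩
    show (g' * g⁻¹) • u = v
    rw [mul_smul, ← hg, inv_smul_smul, hg']
  obtain ⟨A, κ, h⟩ := ball_growth D ε hε
  have h1 := (h V G v₀ lam hinf hG htrans hdeg hlam hcon' (max C 1) (le_max_right _ _)).1
  refine hcon' (h1.subset ?_)
  intro n hn
  refine ⟨hn, (hC n hn).trans ?_⟩
  have hlam0 : 0 ≤ lam := by
    apply ge_of_tendsto' hlam
    intro m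
    positivity
  exact mul_le_mul_of_nonneg_right (le_max_left _ _) (pow_nonneg hlam0 n)

end Pool.Agent.EXB
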